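import Mathlib

set_option autoImplicit false

/-!
# Walsh transforms of plateaued APN functions and exclude multiplicities
-/

namespace Pool.Agent.R132.APN

open Finset

/-- the vector space -/
abbrev V (n : ℕ) : Type := Fin n → ZMod 2

/-- inner product -/
def dot {n : ℕ} (u x : V n) : ZMod 2 := ∑ i, u i * x i

/-- sign -/
def sg (a : ZMod 2) : ℤ := (-1) ^ a.val

lemma sg_zero : sg 0 = 1 := by decide
lemma sg_one : sg 1 = -1 := by decide
lemma sg_add (a b : ZMod 2) : sg (a + b) = sg a * sg b := by
  revert a b; decide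
lemma sg_sq (a : ZMod 2) : sg a * sg a = 1 := by
  revert a; decide
lemma sg_cases (a : ZMod 2) : (a = 0 ∧ sg a = 1) ∨ (a = 1 ∧ sg a = -1) := by
  revert a; decide
lemma zmod2 (a : ZMod 2) : a = 0 ∨ a = 1 := by revert a; decide
lemma add_self' {n : ℕ} (x : V n) : x + x = 0 := by
  funext i
  have : ∀ a : ZMod 2, a + a = 0 := by decide
  exact this _
lemma zadd_self (a : ZMod 2) : a + a = 0 := by revert a; decide
lemma zmul_self (a : ZMod 2) : a * a = a := by revert a; decide

lemma dot_add_right {n : ℕ} (u x y : V n) : dot u (x + y) = dot u x + dot u y := by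
  simp [dot, mul_add, sum_add_distrib]
lemma dot_add_left {n : ℕ} (u v x : V n) : dot (u + v) x = dot u x + dot v x := by
  simp [dot, add_mul, sum_add_distrib]
lemma dot_zero_left {n : ℕ} (x : V n) : dot 0 x = 0 := by simp [dot]
lemma dot_zero_right {n : ℕ} (x : V n) : dot x 0 = 0 := by simp [dot]
lemma dot_comm {n : ℕ} (u x : V n) : dot u x = dot x u := by simp [dot, mul_comm]
lemma dot_single {n : ℕ} (i : Fin n) (x : V n) : dot (Pi.single i 1) x = x i := by
  simp [dot, Pi.single_apply]

/-- orthogonality -/
lemma sum_sg_dot {n : ℕ} (w : V n) : ∑ u : V n, sg (dot u w) = if w = 0 then 2 ^ n else 0 := by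
  split_ifs with h
  · subst h
    simp [dot_zero_right, sg_zero]
  · obtain ⟨i, hi⟩ := Function.ne_iff.1 h
    have hi1 : w i = 1 := (zmod2 _).resolve_left hi
    have e : ∑ u : V n, sg (dot u w) = ∑ u : V n, sg (dot (u + Pi.single i 1) w) :=
      (Equiv.sum_comp (Equiv.addRight (Pi.single i 1 : V n)) (fun u => sg (dot u w))).symm
    have e2 : ∀ u : V n, sg (dot (u + Pi.single i 1) w) = - sg (dot u w) := by
      intro u
      rw [dot_add_left, dot_single, hi1, sg_add, sg_one]
      ring
    rw [Finset.sum_congr rfl fun u _ => e2 u, Finset.sum_neg_distrib] at e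
    linarith

/-- Fourier transform -/
def ft {n : ℕ} (f : V n → ℤ) (u : V n) : ℤ := ∑ x, f x * sg (dot u x)

lemma ft_inv {n : ℕ} (f : V n → ℤ) (a : V n) :
    ∑ u, sg (dot u a) * ft f u = 2 ^ n * f a := by
  simp only [ft, Finset.mul_sum]
  rw [Finset.sum_comm]
  have h : ∀ x, ∑ u : V n, sg (dot u a) * (f x * sg (dot u x)) =
      if x = a then 2 ^ n * f a else 0 := by
    intro x
    have h1 : ∀ u : V n, sg (dot u a) * (f x * sg (dot u x)) = f x * sg (dot u (a + x)) := by
      intro u
      rw [dot_add_right, sg_add]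
      ring
    rw [Finset.sum_congr rfl fun u _ => h1 u, ← Finset.mul_sum, sum_sg_dot]
    by_cases hx : x = a
    · subst hx
      rw [if_pos (add_self' x), if_pos rfl]
      ring
    · rw [if_neg hx, if_neg, mul_zero]
      intro h
      apply hx
      have := congrArg (· + x) h
      simp only [add_assoc, add_self', add_zero, zero_add] at this
      exact this.symm
  rw [Finset.sum_congr rfl fun x _ => h x]
  simp

lemma parseval {n : ℕ} (f : V n → ℤ) : ∑ u, ft f u ^ 2 = 2 ^ n * ∑ x, f x ^ 2 := by
  have h : ∀ u, ft f u ^ 2 = ∑ x, f x * (sg (dot u x) * ft f u) := by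
    intro u
    rw [sq]
    nth_rw 1 [ft]
    rw [Finset.sum_mul]
    refine Finset.sum_congr rfl fun x _ => ?_
    ring
  rw [Finset.sum_congr rfl fun u _ => h u, Finset.sum_comm, Finset.mul_sum]
  refine Finset.sum_congr rfl fun x _ => ?_
  rw [← Finset.mul_sum, ft_inv]
  ring

lemma cube {n : ℕ} (f : V n → ℤ) (a : V n) :
    ∑ u, sg (dot u a) * ft f u ^ 3 = 2 ^ n * ∑ x, ∑ y, f x * f y * f (x + y + a) := by
  have h : ∀ u, sg (dot u a) * ft f u ^ 3 =
      ∑ x, ∑ y, f x * f y * (sg (dot u (x + y + a)) * ft f u) := by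
    intro u
    have e : ft f u ^ 3 = ∑ x, ∑ y, f x * sg (dot u x) * (f y * sg (dot u y)) * ft f u := by
      rw [pow_succ, sq]
      nth_rw 1 [ft]
      nth_rw 1 [ft]
      rw [Finset.sum_mul_sum, Finset.sum_mul]
      refine Finset.sum_congr rfl fun x _ => ?_
      rw [Finset.sum_mul]
    rw [e, Finset.mul_sum]
    refine Finset.sum_congr rfl fun x _ => ?_
    rw [Finset.mul_sum]
    refine Finset.sum_congr rfl fun y _ => ?_
    rw [dot_add_right, dot_add_right, sg_add, sg_add]
    ring
  rw [Finset.sum_congr rfl fun u _ => h u, Finset.sum_comm, Finset.mul_sum]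
  refine Finset.sum_congr rfl fun x _ => ?_
  rw [Finset.sum_comm, Finset.mul_sum]
  refine Finset.sum_congr rfl fun y _ => ?_
  rw [← Finset.mul_sum, ft_inv]
  ring

/-- Walsh transform of `F` -/
def walsh {n : ℕ} (F : V n → V n) (u v : V n) : ℤ := ∑ x, sg (dot v (F x) + dot u x)

lemma walsh_eq_ft {n : ℕ} (F : V n → V n) (u v : V n) :
    walsh F u v = ft (fun x => sg (dot v (F x))) u := by
  simp [walsh, ft, sg_add]

/-- APN -/
def IsAPN {n : ℕ} (F : V n → V n) : Prop :=
  ∀ a, a ≠ 0 → ∀ b, (univ.filter fun x => F x + F (x + a) = b).card ≤ 2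

/-- plateaued -/
def IsPlateaued {n : ℕ} (F : V n → V n) : Prop :=
  ∀ v, v ≠ 0 → ∃ lam : ℝ, 0 ≤ lam ∧ ∀ u, (walsh F u v : ℝ) = 0 ∨ (walsh F u v : ℝ) = lam ∨
    (walsh F u v : ℝ) = -lam

/-- squared amplitudes -/
lemma exists_amp {n : ℕ} {F : V n → V n} (hF : IsPlateaued F) (v : V n) :
    ∃ j : ℕ, n ≤ 2 * j ∧ (∀ u, walsh F u v ^ 2 = 0 ∨ walsh F u v ^ 2 = 4 ^ j) ∧
      (v = 0 → j = n) ∧ (n = 2 * j → ∀ u, walsh F u v ^ 2 = 4 ^ j) := by
  have hpars : ∑ u, walsh F u v ^ 2 = 4 ^ n := by
    simp only [walsh_eq_ft]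
    rw [parseval]
    have : ∀ x, sg (dot v (F x)) ^ 2 = 1 := fun x => by rw [sq, sg_sq]
    simp only [this]
    simp only [sum_const, card_univ, Fintype.card_fun, ZMod.card, Fintype.card_fin, nsmul_eq_mul,
      mul_one]
    push_cast
    rw [← mul_pow]
    norm_num
  obtain ⟨L, hL0, hL⟩ : ∃ L : ℤ, (∃ u, L = walsh F u v ^ 2 ∧ walsh F u v ≠ 0) ∧
      ∀ u, walsh F u v ^ 2 = 0 ∨ walsh F u v ^ 2 = L := by
    have hex : ∃ u, walsh F u v ≠ 0 := by
      by_contra h
      push Not at h
      simp only [h] at hpars
      norm_num at hpars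
      have : (0 : ℤ) < 4 ^ n := by positivity
      omega
    obtain ⟨u0, hu0⟩ := hex
    refine ⟨walsh F u0 v ^ 2, ⟨u0, rfl, hu0⟩, fun u => ?_⟩
    by_cases hv : v = 0
    · subst hv
      have hw : ∀ u, walsh F u 0 = if u = 0 then 2 ^ n else 0 := by
        intro u
        simp only [walsh, dot_zero_left, zero_add]
        simp only [dot_comm u]
        exact sum_sg_dot u
      rw [hw] at hu0 ⊢
      by_cases h0 : u0 = 0
      · by_cases h1 : u = 0
        · right; rw [h0, h1]
          exact congrArg (· ^ 2) (hw 0).symm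
        · left; rw [if_neg h1]; norm_num
      · rw [if_neg h0] at hu0
        exact absurd rfl hu0
    · obtain ⟨lam, -, hlam⟩ := hF v hv
      have h1 : (walsh F u0 v : ℝ) ^ 2 = lam ^ 2 := by
        rcases hlam u0 with h | h | h
        · exact absurd (by exact_mod_cast h) hu0
        · rw [h]
        · rw [h]; ring
      rcases hlam u with h | h | h
      · left
        have : walsh F u v = 0 := by exact_mod_cast h
        rw [this]; norm_num
      · right
        have h2 : (walsh F u v : ℝ) ^ 2 = (walsh F u0 v : ℝ) ^ 2 := by rw [h1, h]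
        exact_mod_cast h2
      · right
        have h2 : (walsh F u v : ℝ) ^ 2 = (walsh F u0 v : ℝ) ^ 2 := by rw [h1, h]; ring
        exact_mod_cast h2
  obtain ⟨u0, hu0, hne⟩ := hL0
  set s := univ.filter (fun u => walsh F u v ^ 2 = L) with hs
  have hLpos : 0 < L := by rw [hu0]; positivity
  have hsum : ∑ u, walsh F u v ^ 2 = s.card * L := by
    have : ∀ u, walsh F u v ^ 2 = if u ∈ s then L else 0 := by
      intro u
      have hm : u ∈ s ↔ walsh F u v ^ 2 = L := by simp [hs]
      rcases hL u with h | h
      · rw [if_neg (fun h' => by rw [hm.1 h'] at h; omega), h]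
      · rw [if_pos (hm.2 h), h]
    rw [Finset.sum_congr rfl fun u _ => this u, Finset.sum_ite_mem, univ_inter, sum_const,
      nsmul_eq_mul]
  have hcard : (s.card : ℤ) ≤ 2 ^ n := by
    have := Finset.card_le_univ s
    rw [Fintype.card_fun, ZMod.card, Fintype.card_fin] at this
    exact_mod_cast this
  rw [hpars] at hsum
  -- walsh F u0 v is a power of two up to sign
  have hdvd : (walsh F u0 v).natAbs ∣ 2 ^ (2 * n) := by
    have h1 : walsh F u0 v ∣ 2 ^ (2 * n) := by
      rw [pow_mul]
      norm_num
      rw [hsum, hu0]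
      exact ⟨(s.card : ℤ) * walsh F u0 v, by ring⟩
    have := Int.natAbs_dvd_natAbs.2 h1
    simpa using this
  obtain ⟨j, -, hj⟩ := (Nat.dvd_prime_pow Nat.prime_two).1 hdvd
  have hLj : L = 4 ^ j := by
    have h1 : (walsh F u0 v) ^ 2 = ((walsh F u0 v).natAbs : ℤ) ^ 2 := (Int.natAbs_sq _).symm
    rw [hu0, h1, hj]
    push_cast
    rw [← pow_mul, mul_comm j 2, pow_mul]
    norm_num
  have hjn : n ≤ 2 * j := by
    by_contra h
    push Not at h
    have h1 : (4 : ℤ) ^ n ≤ 2 ^ n * 4 ^ j := by
      rw [hsum, hLj]
      exact mul_le_mul_of_nonneg_right hcard (by positivity)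
    have h2 : (4 : ℤ) ^ j < 2 ^ n := by
      have : (4 : ℤ) ^ j = 2 ^ (2 * j) := by rw [pow_mul]; norm_num
      rw [this]
      exact pow_lt_pow_right₀ (by norm_num) h
    have h3 : (4 : ℤ) ^ n = 2 ^ n * 2 ^ n := by rw [← mul_pow]; norm_num
    rw [h3] at h1
    have h4 : (0 : ℤ) < 2 ^ n := by positivity
    nlinarith
  refine ⟨j, hjn, fun u => ?_, ?_, ?_⟩
  · rw [← hLj]; exact hL u
  · intro hv
    subst hv
    have hw : ∀ u, walsh F u 0 = if u = 0 then 2 ^ n else 0 := by
      intro u
      simp only [walsh, dot_zero_left, zero_add]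
      simp only [dot_comm u]
      exact sum_sg_dot u
    have h0 : u0 = 0 := by
      by_contra h
      rw [hw, if_neg h] at hne
      exact hne rfl
    rw [h0, hw, if_pos rfl] at hu0
    have h1 : (4 : ℤ) ^ j = 4 ^ n := by
      rw [← hLj, hu0, ← pow_mul, mul_comm, pow_mul]
      norm_num
    exact Nat.pow_right_injective (le_refl 2 |>.trans (by norm_num : 2 ≤ 4)) (by exact_mod_cast h1)
  · intro hn u
    -- all coefficients are nonzero
    have h1 : (s.card : ℤ) = 2 ^ n := by
      have h3 : (4 : ℤ) ^ n = 2 ^ n * 4 ^ j := by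
        have : (4 : ℤ) ^ j = 2 ^ n := by rw [hn, pow_mul]; norm_num
        rw [this, ← mul_pow]; norm_num
      rw [h3, hLj] at hsum
      have h4 : (0 : ℤ) < 4 ^ j := by positivity
      exact (mul_right_cancel₀ h4.ne' hsum).symm
    have h2 : s = univ := by
      rw [← Finset.card_eq_iff_eq_univ, Fintype.card_fun, ZMod.card, Fintype.card_fin]
      exact_mod_cast h1
    have h3 : u ∈ s := by rw [h2]; exact mem_univ _
    rw [hs, mem_filter] at h3
    rw [h3.2, hLj]

/-- number of ordered solutions -/
def N3 {n : ℕ} (F : V n → V n) (a b : V n) : ℕ :=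
  (univ.filter fun p : V n × V n => F p.1 + F p.2 + F (p.1 + p.2 + a) = b).card

lemma N3_formula {n : ℕ} {F : V n → V n} {j : V n → ℕ}
    (hj : ∀ v u, walsh F u v ^ 2 = 0 ∨ walsh F u v ^ 2 = 4 ^ j v) (a b : V n) :
    2 ^ n * (N3 F a b : ℤ) = ∑ v, 4 ^ j v * sg (dot v (F a + b)) := by
  -- indicator as a character sum
  have h1 : (2 : ℤ) ^ n * (N3 F a b : ℤ) =
      ∑ x, ∑ y, ∑ v : V n, sg (dot v (F x + F y + F (x + y + a) + b)) := by
    have e : (N3 F a b : ℤ) = ∑ x : V n, ∑ y : V n,
        if F x + F y + F (x + y + a) = b then (1 : ℤ) else 0 := by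
      rw [N3, ← Fintype.sum_prod_type', Finset.sum_boole]
    rw [e, Finset.mul_sum]
    refine Finset.sum_congr rfl fun x _ => ?_
    rw [Finset.mul_sum]
    refine Finset.sum_congr rfl fun y _ => ?_
    rw [sum_sg_dot]
    by_cases h : F x + F y + F (x + y + a) = b
    · rw [if_pos h, if_pos (by rw [h, add_self']), mul_one]
    · rw [if_neg h, if_neg, mul_zero]
      intro h'
      apply h
      have := congrArg (· + b) h'
      simp only [add_assoc, add_self', add_zero, zero_add] at this
      simpa only [add_assoc] using this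
  have h2 : ∀ v : V n, ∑ x, ∑ y, sg (dot v (F x)) * sg (dot v (F y)) * sg (dot v (F (x + y + a)))
      = 4 ^ j v * sg (dot v (F a)) := by
    intro v
    have hc := cube (fun x => sg (dot v (F x))) a
    have hi := ft_inv (fun x => sg (dot v (F x))) a
    have h3 : ∀ u, sg (dot u a) * ft (fun x => sg (dot v (F x))) u ^ 3 =
        4 ^ j v * (sg (dot u a) * ft (fun x => sg (dot v (F x))) u) := by
      intro u
      have h4 := hj v u
      rw [walsh_eq_ft] at h4
      rcases h4 with h4 | h4
      · have h5 : ft (fun x => sg (dot v (F x))) u = 0 := by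
          exact pow_eq_zero_iff (two_ne_zero) |>.1 h4
        rw [h5]; ring
      · rw [← h4]; ring
    rw [Finset.sum_congr rfl fun u _ => h3 u, ← Finset.mul_sum, hi] at hc
    have hpos : (0 : ℤ) < 2 ^ n := by positivity
    apply mul_left_cancel₀ hpos.ne'
    rw [← hc]
    ring
  rw [h1]
  have h5 : ∀ x y v : V n, sg (dot v (F x + F y + F (x + y + a) + b)) =
      sg (dot v (F x)) * sg (dot v (F y)) * sg (dot v (F (x + y + a))) * sg (dot v b) := by
    intro x y v
    rw [dot_add_right, dot_add_right, dot_add_right, sg_add, sg_add, sg_add]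
  simp only [h5]
  have h6 : ∑ x, ∑ y, ∑ v : V n, sg (dot v (F x)) * sg (dot v (F y)) *
      sg (dot v (F (x + y + a))) * sg (dot v b) =
      ∑ v : V n, (∑ x, ∑ y, sg (dot v (F x)) * sg (dot v (F y)) *
        sg (dot v (F (x + y + a)))) * sg (dot v b) := by
    have e1 : ∀ x : V n, ∑ y, ∑ v : V n, sg (dot v (F x)) * sg (dot v (F y)) *
        sg (dot v (F (x + y + a))) * sg (dot v b) =
        ∑ v : V n, ∑ y, sg (dot v (F x)) * sg (dot v (F y)) *
        sg (dot v (F (x + y + a))) * sg (dot v b) := fun x => Finset.sum_comm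
    rw [Finset.sum_congr rfl fun x _ => e1 x, Finset.sum_comm]
    refine Finset.sum_congr rfl fun v _ => ?_
    rw [Finset.sum_mul]
    refine Finset.sum_congr rfl fun x _ => ?_
    rw [Finset.sum_mul]
  rw [h6]
  refine Finset.sum_congr rfl fun v _ => ?_
  rw [h2, dot_add_right, sg_add]
  ring

lemma N3_graph {n : ℕ} {F : V n → V n} (hF : IsAPN F) (a : V n) :
    (N3 F a (F a) : ℤ) = 3 * 2 ^ n - 2 := by
  have e : (N3 F a (F a) : ℤ) = ∑ x : V n,
      ((univ.filter fun y : V n => F x + F y + F (x + y + a) = F a).card : ℤ) := by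
    have : (N3 F a (F a) : ℤ) = ∑ x : V n, ∑ y : V n,
        if F x + F y + F (x + y + a) = F a then (1 : ℤ) else 0 := by
      rw [N3, ← Fintype.sum_prod_type', Finset.sum_boole]
    rw [this]
    refine Finset.sum_congr rfl fun x _ => ?_
    rw [Finset.sum_boole]
  have hx : ∀ x : V n, ((univ.filter fun y : V n => F x + F y + F (x + y + a) = F a).card : ℤ) =
      if x = a then 2 ^ n else 2 := by
    intro x
    split_ifs with h
    · subst h
      have : (univ.filter fun y : V n => F x + F y + F (x + y + x) = F x) = univ := by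
        rw [Finset.filter_eq_self]
        intro y _
        have h1 : x + y + x = y := by
          rw [add_comm x y, add_assoc, add_self', add_zero]
        rw [h1, add_assoc, add_self', add_zero]
      rw [this, card_univ, Fintype.card_fun, ZMod.card, Fintype.card_fin]
      push_cast
      ring
    · have hd : x + a ≠ 0 := by
        intro h'
        apply h
        have := congrArg (· + a) h'
        simp only [add_assoc, add_self', add_zero, zero_add] at this
        exact this
      have h1 := hF (x + a) hd (F x + F a)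
      have h2 : (univ.filter fun y : V n => F x + F y + F (x + y + a) = F a) =
          univ.filter fun y => F y + F (y + (x + a)) = F x + F a := by
        ext y
        simp only [mem_filter, mem_univ, true_and]
        have e1 : x + y + a = y + (x + a) := by rw [add_comm x y, add_assoc]
        rw [e1]
        constructor
        · intro h'
          rw [← h']
          have e2 : F x + (F x + F y + F (y + (x + a))) = (F x + F x) + (F y + F (y + (x + a))) := by
            abel
          rw [e2, add_self', zero_add]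
        · intro h'
          rw [add_assoc, h', ← add_assoc, add_self', zero_add]
      have h3 : ({a, x} : Finset (V n)) ⊆ univ.filter fun y => F y + F (y + (x + a)) = F x + F a := by
        intro y hy
        rw [mem_insert, mem_singleton] at hy
        rw [mem_filter]
        refine ⟨mem_univ _, ?_⟩
        rcases hy with rfl | rfl
        · have : y + (x + y) = x := by rw [add_comm x y, ← add_assoc, add_self', zero_add]
          rw [this, add_comm]
        · have : y + (y + a) = a := by rw [← add_assoc, add_self', zero_add]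
          rw [this]
      have h4 : ({a, x} : Finset (V n)).card = 2 := Finset.card_pair (Ne.symm h)
      rw [h2]
      have h5 := Finset.card_le_card h3
      rw [h4] at h5
      have : (univ.filter fun y => F y + F (y + (x + a)) = F x + F a).card = 2 := le_antisymm h1 h5
      rw [this]
      rfl
  rw [e, Finset.sum_congr rfl fun x _ => hx x, Finset.sum_ite, Finset.sum_const, Finset.sum_const]
  have h1 : (univ.filter fun x : V n => x = a).card = 1 := by
    rw [Finset.card_eq_one]
    exact ⟨a, by ext; simp⟩
  have h2 : (univ.filter fun x : V n => ¬ x = a).card = 2 ^ n - 1 := by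
    have := Finset.card_filter_add_card_filter_not (s := (univ : Finset (V n))) (fun x => x = a)
    rw [h1, card_univ, Fintype.card_fun, ZMod.card, Fintype.card_fin] at this
    omega
  rw [h1, h2]
  have h0 : 1 ≤ 2 ^ n := Nat.one_le_two_pow
  have h3 : ((2 ^ n - 1 : ℕ) : ℤ) = 2 ^ n - 1 := by
    rw [Nat.cast_sub h0]
    push_cast
    ring
  rw [nsmul_eq_mul, nsmul_eq_mul, h3]
  push_cast
  ring

/-- graph -/
def graph {n : ℕ} (F : V n → V n) : Finset (V n × V n) := univ.image fun x => (x, F x)

/-- exclude multiplicity -/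
def mult {n : ℕ} (F : V n → V n) (p : V n × V n) : ℕ :=
  (((graph F).powersetCard 3).filter fun T => ∑ t ∈ T, t = p).card

lemma N3_eq_mult {n : ℕ} (F : V n → V n) (a b : V n) (hb : b ≠ F a) :
    N3 F a b = 6 * mult F (a, b) := by
  classical
  set TT := ((graph F).powersetCard 3).filter fun T => ∑ t ∈ T, t = (a, b) with hTT
  set S := univ.filter fun p : V n × V n => F p.1 + F p.2 + F (p.1 + p.2 + a) = b with hS
  set φ : V n × V n → Finset (V n × V n) := fun p =>
    {(p.1, F p.1), (p.2, F p.2), (p.1 + p.2 + a, F (p.1 + p.2 + a))} with hφ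
  -- distinctness
  have hdist : ∀ p ∈ S, p.1 ≠ p.2 ∧ p.1 ≠ p.1 + p.2 + a ∧ p.2 ≠ p.1 + p.2 + a := by
    rintro ⟨x, y⟩ hp
    rw [hS, mem_filter] at hp
    have hp := hp.2
    simp only at hp ⊢
    refine ⟨?_, ?_, ?_⟩
    · rintro rfl
      apply hb
      rw [← hp, add_self', zero_add, add_self', zero_add]
    · intro h
      have h1 : y + a = 0 := by
        have := congrArg (x + ·) h
        simp only [add_self', ← add_assoc, zero_add] at this
        exact this.symm
      have h2 : y = a := by
        have := congrArg (· + a) h1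
        simp only [add_assoc, add_self', add_zero, zero_add] at this
        exact this
      apply hb
      rw [← hp, ← h, h2, add_comm (F x) (F a), add_assoc, add_self', add_zero]
    · intro h
      have h1 : x + a = 0 := by
        have := congrArg (y + ·) h
        rw [add_comm x y] at this
        simp only [add_self', ← add_assoc, zero_add] at this
        exact this.symm
      have h2 : x = a := by
        have := congrArg (· + a) h1
        simp only [add_assoc, add_self', add_zero, zero_add] at this
        exact this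
      apply hb
      rw [← hp, ← h, h2, add_assoc, add_self', add_zero]
  have hmaps : ∀ p ∈ S, φ p ∈ TT := by
    intro p hp
    obtain ⟨h1, h2, h3⟩ := hdist p hp
    have n12 : (p.1, F p.1) ≠ (p.2, F p.2) := fun h => h1 (congrArg Prod.fst h)
    have n13 : (p.1, F p.1) ≠ (p.1 + p.2 + a, F (p.1 + p.2 + a)) :=
      fun h => h2 (congrArg Prod.fst h)
    have n23 : (p.2, F p.2) ≠ (p.1 + p.2 + a, F (p.1 + p.2 + a)) :=
      fun h => h3 (congrArg Prod.fst h)
    rw [hTT, mem_filter, mem_powersetCard]
    refine ⟨⟨?_, ?_⟩, ?_⟩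
    · intro t ht
      rw [hφ] at ht
      simp only [mem_insert, mem_singleton] at ht
      rw [graph, mem_image]
      rcases ht with rfl | rfl | rfl
      · exact ⟨_, mem_univ _, rfl⟩
      · exact ⟨_, mem_univ _, rfl⟩
      · exact ⟨_, mem_univ _, rfl⟩
    · rw [hφ]
      exact Finset.card_eq_three.2 ⟨_, _, _, n12, n13, n23, rfl⟩
    · rw [hφ]
      simp only
      rw [sum_insert (by simp [n12, n13]), sum_insert (by simp [n23]), sum_singleton]
      rw [hS, mem_filter] at hp
      refine Prod.ext ?_ ?_
      · simp only [Prod.fst_add]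
        have e2 : p.1 + (p.2 + (p.1 + p.2 + a)) = (p.1 + p.1) + (p.2 + p.2) + a := by abel
        rw [e2, add_self', add_self', zero_add, zero_add]
      · simp only [Prod.snd_add]
        rw [← add_assoc]
        exact hp.2
  have hfib : ∀ T ∈ TT, (S.filter fun p => φ p = T).card = 6 := by
    intro T hT
    rw [hTT, mem_filter, mem_powersetCard] at hT
    obtain ⟨⟨hT1, hT2⟩, hT3⟩ := hT
    have hoff : T.offDiag.card = 6 := by
      rw [offDiag_card, hT2]
    rw [← hoff]
    symm
    -- a member of T determines its second coordinate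
    have hg : ∀ t ∈ T, t = (t.1, F t.1) := by
      intro t ht
      have := hT1 ht
      rw [graph, mem_image] at this
      obtain ⟨x, -, rfl⟩ := this
      rfl
    apply Finset.card_bij (fun q _ => (q.1.1, q.2.1))
    · rintro ⟨t, t'⟩ hq
      rw [mem_offDiag] at hq
      obtain ⟨ht, ht', hne⟩ := hq
      simp only at ht ht' hne ⊢
      obtain ⟨t'', ht'', hTeq⟩ : ∃ t'', t'' ∈ T ∧ T = {t, t', t''} := by
        have h1 : ((T.erase t).erase t').card = 1 := by
          rw [card_erase_of_mem, card_erase_of_mem ht, hT2]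
          rw [mem_erase]
          exact ⟨Ne.symm hne, ht'⟩
        obtain ⟨t'', h2⟩ := card_eq_one.1 h1
        have h3 : t'' ∈ (T.erase t).erase t' := by rw [h2]; exact mem_singleton_self _
        refine ⟨t'', mem_of_mem_erase (mem_of_mem_erase h3), ?_⟩
        rw [← h2]
        have h4 : t' ∈ T.erase t := mem_erase.2 ⟨Ne.symm hne, ht'⟩
        rw [insert_erase h4, insert_erase ht]
      have hne2 : t ≠ t'' ∧ t' ≠ t'' := by
        constructor
        · rintro rfl
          have : T.card ≤ 2 := by
            rw [hTeq]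
            have : ({t, t', t} : Finset (V n × V n)) = {t, t'} := by
              ext z; simp only [mem_insert, mem_singleton]; tauto
            rw [this]
            exact card_le_two
          omega
        · rintro rfl
          have : T.card ≤ 2 := by
            rw [hTeq]
            have : ({t, t', t'} : Finset (V n × V n)) = {t, t'} := by
              ext z; simp only [mem_insert, mem_singleton]; tauto
            rw [this]
            exact card_le_two
          omega
      have hsum : t + (t' + t'') = (a, b) := by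
        rw [← hT3]
        nth_rw 1 [hTeq]
        rw [sum_insert (by simp [hne, hne2.1]), sum_insert (by simp [hne2.2]), sum_singleton]
      have h1 := congrArg Prod.fst hsum
      have h2 := congrArg Prod.snd hsum
      simp only [Prod.fst_add, Prod.snd_add] at h1 h2
      have e3 : t''.1 = t.1 + t'.1 + a := by
        rw [← h1]
        have : t.1 + t'.1 + (t.1 + (t'.1 + t''.1)) = (t.1 + t.1) + (t'.1 + t'.1) + t''.1 := by
          abel
        rw [this, add_self', add_self', zero_add, zero_add]
      have g1 : t.2 = F t.1 := congrArg Prod.snd (hg t ht)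
      have g2 : t'.2 = F t'.1 := congrArg Prod.snd (hg t' ht')
      have g3 : t''.2 = F t''.1 := congrArg Prod.snd (hg t'' ht'')
      rw [mem_filter, hS, mem_filter]
      refine ⟨⟨mem_univ _, ?_⟩, ?_⟩
      · simp only
        rw [← e3, ← g1, ← g2, ← g3, add_assoc]
        exact h2
      · rw [hφ]
        simp only
        rw [← e3, ← g1, ← g2, ← g3, hTeq]
    · rintro ⟨t, t'⟩ hq ⟨s, s'⟩ hq' h
      rw [mem_offDiag] at hq hq'
      simp only [Prod.mk.injEq] at h
      have e1 := hg t hq.1
      have e2 := hg t' hq.2.1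
      have e3 := hg s hq'.1
      have e4 := hg s' hq'.2.1
      rw [e1, e2, e3, e4, h.1, h.2]
    · rintro ⟨x, y⟩ hxy
      rw [mem_filter] at hxy
      obtain ⟨hxy1, hxy2⟩ := hxy
      refine ⟨((x, F x), (y, F y)), ?_, rfl⟩
      rw [mem_offDiag]
      refine ⟨?_, ?_, ?_⟩
      · rw [← hxy2, hφ]; simp
      · rw [← hxy2, hφ]; simp
      · intro h
        exact (hdist _ hxy1).1 (congrArg Prod.fst h)
  have hcount := Finset.card_eq_sum_card_fiberwise (f := φ) (s := S) (t := TT) hmaps
  rw [N3, mult, ← hS, ← hTT, hcount, Finset.sum_congr rfl hfib, sum_const, smul_eq_mul, mul_comm]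

end Pool.Agent.R132.APN
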