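import Pool.Agent.R132.APN

set_option autoImplicit false

/-!
# Parity of the number of bent components of plateaued functions
-/

namespace Pool.Agent.R132.APN

open Finset

/-- the data of squared amplitudes of a plateaued function in dimension `2 k` -/
structure Amp {n : ℕ} (k : ℕ) (F : V n → V n) (j : V n → ℕ) : Prop where
  hn : n = 2 * k
  ge : ∀ v, k ≤ j v
  sq : ∀ v u, walsh F u v ^ 2 = 0 ∨ walsh F u v ^ 2 = 4 ^ j v
  zero : j 0 = 2 * k
  bent : ∀ v, j v = k → ∀ u, walsh F u v ^ 2 = 4 ^ k

lemma exists_Amp {n k : ℕ} {F : V n → V n} (hn : n = 2 * k) (hF : IsPlateaued F) :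
    ∃ j : V n → ℕ, Amp k F j := by
  choose j h1 h2 h3 h4 using fun v => exists_amp hF v
  refine ⟨j, hn, fun v => ?_, h2, ?_, fun v hv u => ?_⟩
  · have := h1 v; omega
  · rw [h3 0 rfl, hn]
  · rw [← hv]
    exact h4 v (by omega) u

variable {n k : ℕ} {F : V n → V n} {j : V n → ℕ}

lemma walsh_div (h : Amp k F j) (v : V n) :
    ∃ t : ℤ, walsh F 0 v = 2 ^ k * t ∧ (j v = k → t % 2 = 1) ∧ (j v ≠ k → t % 2 = 0) := by
  by_cases hv : j v = k
  · have h1 := h.bent v hv 0
    have h2 : walsh F 0 v ^ 2 = (2 ^ k) ^ 2 := by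
      rw [h1, ← pow_mul, mul_comm, pow_mul]
      norm_num
    rcases sq_eq_sq_iff_eq_or_eq_neg.1 h2 with h3 | h3
    · exact ⟨1, by rw [h3]; ring, fun _ => by norm_num, fun h' => absurd hv h'⟩
    · exact ⟨-1, by rw [h3]; ring, fun _ => by norm_num, fun h' => absurd hv h'⟩
  · have hge := h.ge v
    obtain ⟨m, hm⟩ : ∃ m, j v = k + 1 + m := ⟨j v - (k + 1), by omega⟩
    rcases h.sq v 0 with h1 | h1
    · have : walsh F 0 v = 0 := pow_eq_zero_iff two_ne_zero |>.1 h1
      exact ⟨0, by rw [this]; ring, fun h' => absurd h' hv, fun _ => by norm_num⟩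
    · have h2 : walsh F 0 v ^ 2 = (2 ^ (k + 1 + m)) ^ 2 := by
        rw [h1, hm, ← pow_mul, mul_comm, pow_mul]
        norm_num
      rcases sq_eq_sq_iff_eq_or_eq_neg.1 h2 with h3 | h3
      · refine ⟨2 * 2 ^ m, by rw [h3]; ring, fun h' => absurd h' hv, fun _ => ?_⟩
        exact Int.mul_emod_right _ _
      · refine ⟨2 * (-2 ^ m), by rw [h3]; ring, fun h' => absurd h' hv, fun _ => ?_⟩
        exact Int.mul_emod_right _ _

/-- If the Walsh values at `0` of the components in `U` sum up to a multiple of `2^(k+1)`, then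
the number of bent components in `U` is even. -/
lemma even_of_dvd (h : Amp k F j) (U : Finset (V n))
    (hU : (2 : ℤ) ^ (k + 1) ∣ ∑ v ∈ U, walsh F 0 v) :
    Even (U.filter fun v => j v = k).card := by
  choose t ht1 ht2 ht3 using fun v => walsh_div h v
  simp only [ht1] at hU
  rw [← Finset.mul_sum, pow_succ] at hU
  have h1 : (2 : ℤ) ∣ ∑ v ∈ U, t v := by
    have hpos : (0 : ℤ) < 2 ^ k := by positivity
    exact (mul_dvd_mul_iff_left hpos.ne').1 hU
  have h2 : (∑ v ∈ U, t v) % 2 = ((U.filter fun v => j v = k).card : ℤ) % 2 := by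
    have e : ((U.filter fun v => j v = k).card : ℤ) = ∑ v ∈ U, if j v = k then (1 : ℤ) else 0 := by
      rw [Finset.sum_boole]
    rw [e, Finset.sum_int_mod, Finset.sum_int_mod (f := fun v => if j v = k then (1 : ℤ) else 0)]
    congr 1
    refine Finset.sum_congr rfl fun v _ => ?_
    by_cases hv : j v = k
    · rw [ht2 v hv, if_pos hv]; norm_num
    · rw [ht3 v hv, if_neg hv]; norm_num
  have h3 : ((U.filter fun v => j v = k).card : ℤ) % 2 = 0 := by
    rw [← h2]; exact Int.emod_eq_zero_of_dvd h1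
  rw [Nat.even_iff]
  omega

lemma sum_perp (F : V n → V n) (c : V n) :
    2 * ∑ v ∈ univ.filter (fun v : V n => dot v c = 0), walsh F 0 v =
      2 ^ n * ∑ x, ((if F x = 0 then (1 : ℤ) else 0) + if F x + c = 0 then 1 else 0) := by
  have e1 : 2 * ∑ v ∈ univ.filter (fun v : V n => dot v c = 0), walsh F 0 v =
      ∑ v, walsh F 0 v * (1 + sg (dot v c)) := by
    rw [Finset.sum_filter, Finset.mul_sum]
    refine Finset.sum_congr rfl fun v _ => ?_
    rcases sg_cases (dot v c) with ⟨h, h'⟩ | ⟨h, h'⟩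
    · rw [if_pos h, h']; ring
    · rw [if_neg (by rw [h]; decide), h']; ring
  rw [e1]
  have e2 : ∀ v : V n, walsh F 0 v * (1 + sg (dot v c)) =
      ∑ x, (sg (dot v (F x)) + sg (dot v (F x + c))) := by
    intro v
    rw [walsh, Finset.sum_mul]
    refine Finset.sum_congr rfl fun x _ => ?_
    rw [dot_zero_left, add_zero, dot_add_right, sg_add]
    ring
  rw [Finset.sum_congr rfl fun v _ => e2 v, Finset.sum_comm, Finset.mul_sum]
  refine Finset.sum_congr rfl fun x _ => ?_
  rw [Finset.sum_add_distrib, sum_sg_dot, sum_sg_dot]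
  split_ifs <;> ring

/-- The number of bent components `v` with `v · c = 0` is even (dimension at least `4`). -/
lemma even_bent_perp (h : Amp k F j) (hk : 2 ≤ k) (c : V n) :
    Even ((univ.filter fun v : V n => dot v c = 0).filter fun v => j v = k).card := by
  apply even_of_dvd h
  have h1 := sum_perp F c
  set M := ∑ x, ((if F x = 0 then (1 : ℤ) else 0) + if F x + c = 0 then 1 else 0)
  obtain ⟨m, rfl⟩ : ∃ m, k = m + 2 := ⟨k - 2, by omega⟩
  have h2 : ∑ v ∈ univ.filter (fun v : V n => dot v c = 0), walsh F 0 v =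
      2 ^ (m + 2 + 1) * (2 ^ m * M) := by
    have h3 : (2 : ℤ) ^ n = 2 * (2 ^ (m + 2 + 1) * 2 ^ m) := by
      rw [h.hn]; ring
    rw [h3] at h1
    linarith
  rw [h2]
  exact Dvd.intro _ rfl

/-! ### Coordinate subspaces -/

/-- vectors supported on `S` -/
def box (S : Finset (Fin n)) : Finset (V n) := univ.filter fun v => ∀ i, i ∉ S → v i = 0

lemma sum_box (S : Finset (Fin n)) (w : V n) :
    ∃ m : ℤ, ∑ v ∈ box S, sg (dot v w) = 2 ^ S.card * m := by
  by_cases hw : ∀ i ∈ S, w i = 0
  · refine ⟨1, ?_⟩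
    have e : ∀ v ∈ box S, sg (dot v w) = 1 := by
      intro v hv
      rw [box, mem_filter] at hv
      have : dot v w = 0 := by
        rw [dot]
        apply Finset.sum_eq_zero
        intro i _
        by_cases hi : i ∈ S
        · rw [hw i hi, mul_zero]
        · rw [hv.2 i hi, zero_mul]
      rw [this, sg_zero]
    rw [Finset.sum_congr rfl e, sum_const, nsmul_eq_mul, mul_one, mul_one]
    have hc : (box S).card = 2 ^ S.card := by
      rw [← Finset.card_powerset]
      apply Finset.card_bij (fun v _ => S.filter fun i => v i = 1)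
      · intro v _
        rw [mem_powerset]
        exact filter_subset _ _
      · intro v hv v' hv' hvv
        rw [box, mem_filter] at hv hv'
        funext i
        by_cases hi : i ∈ S
        · have h1 : i ∈ S.filter (fun i => v i = 1) ↔ i ∈ S.filter (fun i => v' i = 1) := by
            rw [hvv]
          rw [mem_filter, mem_filter] at h1
          rcases zmod2 (v i) with h2 | h2 <;> rcases zmod2 (v' i) with h3 | h3
          · rw [h2, h3]
          · exfalso
            have := h1.2 ⟨hi, h3⟩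
            rw [h2] at this
            exact absurd this.2 (by decide)
          · exfalso
            have := h1.1 ⟨hi, h2⟩
            rw [h3] at this
            exact absurd this.2 (by decide)
          · rw [h2, h3]
        · rw [hv.2 i hi, hv'.2 i hi]
      · intro T hT
        rw [mem_powerset] at hT
        refine ⟨fun i => if i ∈ T then 1 else 0, ?_, ?_⟩
        · rw [box, mem_filter]
          refine ⟨mem_univ _, fun i hi => ?_⟩
          exact if_neg (fun h => hi (hT h))
        · ext i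
          rw [mem_filter]
          constructor
          · rintro ⟨_, h2⟩
            by_contra h3
            simp only [if_neg h3] at h2
            exact absurd h2 (by decide)
          · intro h2
            exact ⟨hT h2, if_pos h2⟩
    rw [hc]
    push_cast
    ring
  · refine ⟨0, ?_⟩
    push Not at hw
    obtain ⟨i, hi, hwi⟩ := hw
    have hi1 : w i = 1 := (zmod2 _).resolve_left hwi
    rw [mul_zero]
    apply Finset.sum_involution (fun v _ => v + Pi.single i 1)
    · intro v _
      rw [dot_add_left, dot_single, hi1, sg_add, sg_one]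
      ring
    · intro v _ _ h
      have := congrFun h i
      rw [Pi.add_apply, Pi.single_eq_same] at this
      have h2 : ∀ a : ZMod 2, a + 1 ≠ a := by decide
      exact h2 _ this
    · intro v _
      rw [add_assoc, add_self', add_zero]
    · intro v hv
      rw [box, mem_filter] at hv ⊢
      refine ⟨mem_univ _, fun l hl => ?_⟩
      have hli : l ≠ i := fun h => hl (by rw [h]; exact hi)
      rw [Pi.add_apply, hv.2 l hl, Pi.single_eq_of_ne hli, add_zero]

lemma even_bent_box (h : Amp k F j) (S : Finset (Fin n)) (hS : k + 1 ≤ S.card) :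
    Even ((box S).filter fun v => j v = k).card := by
  apply even_of_dvd h
  have e : ∑ v ∈ box S, walsh F 0 v = ∑ x, ∑ v ∈ box S, sg (dot v (F x)) := by
    rw [Finset.sum_comm]
    refine Finset.sum_congr rfl fun v _ => ?_
    rw [walsh]
    refine Finset.sum_congr rfl fun x _ => ?_
    rw [dot_zero_left, add_zero]
  rw [e]
  apply Finset.dvd_sum
  intro x _
  obtain ⟨m, hm⟩ := sum_box S (F x)
  rw [hm]
  exact Dvd.dvd.mul_right (pow_dvd_pow 2 hS) m

/-! ### The divisibility by four -/

variable {α : Type} [DecidableEq α]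

lemma card_above (E S : Finset α) (hS : S ⊆ E) :
    (E.powerset.filter fun T => S ⊆ T).card = 2 ^ (E.card - S.card) := by
  have : E.powerset.filter (fun T => S ⊆ T) = Finset.Icc S E := by
    ext T
    rw [mem_filter, mem_powerset, Finset.mem_Icc]
    exact and_comm
  rw [this, Finset.card_Icc_finset hS]

lemma four_dvd_sq (E : Finset α) (d : ℕ) (h1 : d + 2 ≤ E.card) (h2 : 2 * d + 1 ≤ E.card)
    (C : Finset (Finset α)) :
    (∀ S ∈ C, S ⊆ E ∧ S.card ≤ d) →
      (4 : ℤ) ∣ ∑ T ∈ E.powerset, (∑ S ∈ C, if S ⊆ T then (1 : ℤ) else 0) ^ 2 := by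
  classical
  induction C using Finset.induction_on with
  | empty => intro _; simp
  | insert S0 C hS0 ih =>
    intro hC
    have ih' := ih fun S hS => hC S (mem_insert_of_mem hS)
    obtain ⟨h3, h4⟩ := hC S0 (mem_insert_self _ _)
    have e : ∑ T ∈ E.powerset, (∑ S ∈ insert S0 C, if S ⊆ T then (1 : ℤ) else 0) ^ 2 =
        ∑ T ∈ E.powerset, (∑ S ∈ C, if S ⊆ T then (1 : ℤ) else 0) ^ 2 +
        ∑ T ∈ E.powerset, (if S0 ⊆ T then (1 : ℤ) else 0) +
        2 * ∑ S ∈ C, ∑ T ∈ E.powerset, (if S0 ∪ S ⊆ T then (1 : ℤ) else 0) := by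
      rw [Finset.sum_comm (s := C), Finset.mul_sum, ← Finset.sum_add_distrib,
        ← Finset.sum_add_distrib]
      refine Finset.sum_congr rfl fun T _ => ?_
      rw [sum_insert hS0]
      by_cases hT : S0 ⊆ T
      · rw [if_pos hT]
        have : ∀ S ∈ C, (if S0 ∪ S ⊆ T then (1 : ℤ) else 0) = if S ⊆ T then 1 else 0 := by
          intro S _
          by_cases hS : S ⊆ T
          · rw [if_pos hS, if_pos (union_subset hT hS)]
          · rw [if_neg hS, if_neg (fun h => hS (subset_union_right.trans h))]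
        rw [Finset.sum_congr rfl this]
        ring
      · rw [if_neg hT]
        have : ∀ S ∈ C, (if S0 ∪ S ⊆ T then (1 : ℤ) else 0) = 0 := by
          intro S _
          rw [if_neg (fun h => hT (subset_union_left.trans h))]
        rw [Finset.sum_congr rfl this]
        simp
    rw [e]
    refine dvd_add (dvd_add ih' ?_) ?_
    · rw [Finset.sum_boole, card_above E S0 h3]
      obtain ⟨m, hm⟩ : ∃ m, E.card - S0.card = m + 2 := ⟨E.card - S0.card - 2, by omega⟩
      rw [hm]
      push_cast
      exact ⟨2 ^ m, by ring⟩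
    · have : (2 : ℤ) ∣ ∑ S ∈ C, ∑ T ∈ E.powerset, (if S0 ∪ S ⊆ T then (1 : ℤ) else 0) := by
        apply Finset.dvd_sum
        intro S hS
        obtain ⟨h5, h6⟩ := hC S (mem_insert_of_mem hS)
        rw [Finset.sum_boole, card_above E (S0 ∪ S) (union_subset h3 h5)]
        have h7 := card_union_le S0 S
        obtain ⟨m, hm⟩ : ∃ m, E.card - (S0 ∪ S).card = m + 1 :=
          ⟨E.card - (S0 ∪ S).card - 1, by omega⟩
        rw [hm]
        push_cast
        exact ⟨2 ^ m, by ring⟩
      obtain ⟨m, hm⟩ := this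
      rw [hm]
      exact ⟨m, by ring⟩

lemma moebius (g : Finset α → ZMod 2) (T : Finset α) :
    ∑ S ∈ T.powerset, ∑ R ∈ S.powerset, g R = g T := by
  have h1 : ∑ S ∈ T.powerset, ∑ R ∈ S.powerset, g R =
      ∑ R ∈ T.powerset, ∑ S ∈ T.powerset.filter (fun S => R ⊆ S), g R := by
    apply Finset.sum_comm'
    intro S R
    simp only [mem_powerset, mem_filter]
    constructor
    · rintro ⟨h1, h2⟩; exact ⟨⟨h1, h2⟩, h2.trans h1⟩
    · rintro ⟨⟨h1, h2⟩, _⟩; exact ⟨h1, h2⟩
  rw [h1]
  have h2 : ∀ R ∈ T.powerset, ∑ S ∈ T.powerset.filter (fun S => R ⊆ S), g R =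
      if R = T then g T else 0 := by
    intro R hR
    rw [mem_powerset] at hR
    rw [sum_const, card_above T R hR]
    by_cases hRT : R = T
    · subst hRT
      simp
    · rw [if_neg hRT]
      have : R.card < T.card := Finset.card_lt_card (Finset.ssubset_iff_subset_ne.2 ⟨hR, hRT⟩)
      obtain ⟨m, hm⟩ : ∃ m, T.card - R.card = m + 1 := ⟨T.card - R.card - 1, by omega⟩
      rw [hm, pow_succ, mul_nsmul, two_nsmul]
      exact zadd_self _
  rw [Finset.sum_congr rfl h2]
  simp

/-- A Boolean function of degree at most `d` on the subsets of `E` has weight divisible by `4`. -/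
lemma four_dvd_card (E : Finset α) (d : ℕ) (h1 : d + 2 ≤ E.card) (h2 : 2 * d + 1 ≤ E.card)
    (g : Finset α → ZMod 2)
    (hg : ∀ S, S ⊆ E → d < S.card → ∑ R ∈ S.powerset, g R = 0) :
    4 ∣ (E.powerset.filter fun T => g T = 1).card := by
  classical
  set C := E.powerset.filter (fun S => ∑ R ∈ S.powerset, g R = 1) with hC
  have hC' : ∀ S ∈ C, S ⊆ E ∧ S.card ≤ d := by
    intro S hS
    rw [hC, mem_filter, mem_powerset] at hS
    refine ⟨hS.1, ?_⟩
    by_contra h
    push Not at h
    rw [hg S hS.1 h] at hS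
    exact absurd hS.2 (by decide)
  have h3 := four_dvd_sq E d h1 h2 C hC'
  have h4 : ∀ T ∈ E.powerset, ((∑ S ∈ C, if S ⊆ T then (1 : ℤ) else 0 : ℤ) : ZMod 2) = g T := by
    intro T hT
    rw [mem_powerset] at hT
    rw [← moebius g T]
    push_cast
    rw [hC, Finset.sum_filter, ← Finset.sum_filter_add_sum_filter_not E.powerset (fun S => S ⊆ T)]
    have e1 : ∑ S ∈ E.powerset.filter (fun S => ¬ S ⊆ T),
        (if ∑ R ∈ S.powerset, g R = 1 then (if S ⊆ T then (1 : ZMod 2) else 0) else 0) = 0 := by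
      apply Finset.sum_eq_zero
      intro S hS
      rw [mem_filter] at hS
      rw [if_neg hS.2]
      split_ifs <;> rfl
    rw [e1, add_zero]
    have e2 : E.powerset.filter (fun S => S ⊆ T) = T.powerset := by
      ext S
      rw [mem_filter, mem_powerset, mem_powerset]
      exact ⟨fun h => h.2, fun h => ⟨h.trans hT, h⟩⟩
    rw [e2]
    refine Finset.sum_congr rfl fun S hS => ?_
    rw [mem_powerset] at hS
    rw [if_pos hS]
    rcases zmod2 (∑ R ∈ S.powerset, g R) with h | h
    · rw [h, if_neg (by decide)]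
    · rw [h, if_pos rfl]
  have h5 : (4 : ℤ) ∣ ∑ T ∈ E.powerset, (if g T = 1 then (1 : ℤ) else 0) := by
    have e : ∑ T ∈ E.powerset, (if g T = 1 then (1 : ℤ) else 0) =
        ∑ T ∈ E.powerset, (∑ S ∈ C, if S ⊆ T then (1 : ℤ) else 0) ^ 2 -
        ∑ T ∈ E.powerset, ((∑ S ∈ C, if S ⊆ T then (1 : ℤ) else 0) ^ 2 -
          if g T = 1 then (1 : ℤ) else 0) := by
      rw [Finset.sum_sub_distrib]; ring
    rw [e]
    refine dvd_sub h3 (Finset.dvd_sum fun T hT => ?_)
    have h6 := h4 T hT
    set G := ∑ S ∈ C, if S ⊆ T then (1 : ℤ) else 0 with hG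
    rcases zmod2 (g T) with h7 | h7
    · rw [h7, if_neg (by decide), sub_zero]
      rw [h7] at h6
      have h8 : (2 : ℤ) ∣ G := by
        have := (ZMod.intCast_zmod_eq_zero_iff_dvd G 2).1 h6
        exact_mod_cast this
      obtain ⟨m, hm⟩ := h8
      exact ⟨m ^ 2, by rw [hm]; ring⟩
    · rw [h7, if_pos rfl]
      rw [h7] at h6
      have h8 : (2 : ℤ) ∣ G - 1 := by
        have h9 : ((G - 1 : ℤ) : ZMod 2) = 0 := by push_cast; rw [h6]; decide
        have := (ZMod.intCast_zmod_eq_zero_iff_dvd (G - 1) 2).1 h9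
        exact_mod_cast this
      obtain ⟨m, hm⟩ := h8
      have : G = 2 * m + 1 := by linarith
      exact ⟨m ^ 2 + m, by rw [this]; ring⟩
  rw [Finset.sum_boole] at h5
  exact_mod_cast h5

end Pool.Agent.R132.APN
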