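import Pool.Agent.R132.APN2

set_option autoImplicit false

/-!
# Exclude multiplicities of the graph of a plateaued APN function
-/

namespace Pool.Agent.R132.APN

open Finset

variable {n k : ℕ} {F : V n → V n} {j : V n → ℕ}

/-- the vector `v` with `v · c = 0` which is the indicator of `R` outside of `i` -/
def vS (c : V n) (i : Fin n) (R : Finset (Fin n)) : V n :=
  fun l => if l = i then ∑ l' ∈ R, c l' else if l ∈ R then 1 else 0

lemma dot_split (c v : V n) (i : Fin n) (S : Finset (Fin n)) (hi : i ∉ S)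
    (hv : ∀ l, l ∉ insert i S → v l = 0) : dot v c = v i * c i + ∑ l ∈ S, v l * c l := by
  rw [dot, ← Finset.sum_insert (f := fun l => v l * c l) hi]
  symm
  apply Finset.sum_subset (subset_univ _)
  intro l _ hl
  rw [hv l hl, zero_mul]

lemma card_perp_filter {c : V n} {i : Fin n} (hc : c i = 1) (S : Finset (Fin n)) (hi : i ∉ S)
    (p : V n → Prop) [DecidablePred p] :
    (((box (insert i S)).filter fun v => dot v c = 0).filter p).card =
      (S.powerset.filter fun R => p (vS c i R)).card := by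
  symm
  have hmem : ∀ R, R ⊆ S → vS c i R ∈ box (insert i S) := by
    intro R hR
    rw [box, mem_filter]
    refine ⟨mem_univ _, fun l hl => ?_⟩
    rw [mem_insert, not_or] at hl
    simp only [vS]
    rw [if_neg hl.1, if_neg (fun h => hl.2 (hR h))]
  have hval : ∀ R, R ⊆ S → ∀ l ∈ S, vS c i R l = if l ∈ R then 1 else 0 := by
    intro R hR l hl
    have : l ≠ i := fun h => hi (h ▸ hl)
    simp only [vS]
    rw [if_neg this]
  have hdot : ∀ R, R ⊆ S → dot (vS c i R) c = 0 := by
    intro R hR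
    have h1 := hmem R hR
    rw [box, mem_filter] at h1
    rw [dot_split c _ i S hi h1.2, hc, mul_one]
    have e1 : vS c i R i = ∑ l' ∈ R, c l' := by simp [vS]
    have e2 : ∑ l ∈ S, vS c i R l * c l = ∑ l' ∈ R, c l' := by
      have : ∀ l ∈ S, vS c i R l * c l = if l ∈ R then c l else 0 := by
        intro l hl
        rw [hval R hR l hl]
        split_ifs <;> simp
      rw [Finset.sum_congr rfl this, ← Finset.sum_filter]
      congr 1
      ext l
      rw [mem_filter]
      exact ⟨fun h => h.2, fun h => ⟨hR h, h⟩⟩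
    rw [e1, e2, zadd_self]
  apply Finset.card_bij (fun R _ => vS c i R)
  · intro R hR
    rw [mem_filter, mem_powerset] at hR
    rw [mem_filter, mem_filter]
    exact ⟨⟨hmem R hR.1, hdot R hR.1⟩, hR.2⟩
  · intro R hR R' hR' h
    rw [mem_filter, mem_powerset] at hR hR'
    ext l
    by_cases hl : l ∈ S
    · have h1 := congrFun h l
      rw [hval R hR.1 l hl, hval R' hR'.1 l hl] at h1
      by_cases h2 : l ∈ R <;> by_cases h3 : l ∈ R' <;> simp_all
    · exact ⟨fun h => absurd (hR.1 h) hl, fun h => absurd (hR'.1 h) hl⟩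
  · intro v hv
    rw [mem_filter, mem_filter, box, mem_filter] at hv
    obtain ⟨⟨⟨-, hv1⟩, hv2⟩, hv3⟩ := hv
    have hvR : vS c i (S.filter fun l => v l = 1) = v := by
      funext l
      simp only [vS]
      by_cases hli : l = i
      · rw [if_pos hli, hli]
        rw [dot_split c v i S hi hv1, hc, mul_one] at hv2
        have e : ∑ l ∈ S, v l * c l = ∑ l' ∈ S.filter (fun l => v l = 1), c l' := by
          rw [Finset.sum_filter]
          refine Finset.sum_congr rfl fun l _ => ?_
          rcases zmod2 (v l) with h | h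
          · rw [h, if_neg (by decide), zero_mul]
          · rw [h, if_pos rfl, one_mul]
        rw [e] at hv2
        have h2 : ∀ x y : ZMod 2, x + y = 0 → y = x := by decide
        exact h2 _ _ hv2
      · rw [if_neg hli]
        by_cases hl : l ∈ S
        · rcases zmod2 (v l) with h | h
          · rw [h, if_neg]
            rw [mem_filter]
            rintro ⟨_, h2⟩
            rw [h] at h2
            exact absurd h2 (by decide)
          · rw [h, if_pos (mem_filter.2 ⟨hl, h⟩)]
        · rw [if_neg (fun h => hl (mem_filter.1 h).1)]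
          exact (hv1 l (by rw [mem_insert, not_or]; exact ⟨hli, hl⟩)).symm
    refine ⟨S.filter fun l => v l = 1, ?_, hvR⟩
    rw [mem_filter, mem_powerset, hvR]
    exact ⟨filter_subset _ _, hv3⟩

lemma card_perp {c : V n} {i : Fin n} (hc : c i = 1) (S : Finset (Fin n)) (hi : i ∉ S) :
    ((box (insert i S)).filter fun v => dot v c = 0).card = 2 ^ S.card := by
  have h := card_perp_filter hc S hi (fun _ => True)
  simp only [Finset.filter_true] at h
  rw [h, card_powerset]

lemma card_perp' {c : V n} {i : Fin n} (hc : c i = 1) (S : Finset (Fin n)) (hi : i ∉ S) :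
    ((box (insert i S)).filter fun v => dot v c = 1).card = 2 ^ S.card := by
  rw [← card_perp hc S hi]
  have hb : ∀ v, v ∈ box (insert i S) → v + Pi.single i 1 ∈ box (insert i S) := by
    intro v hv
    rw [box, mem_filter] at hv ⊢
    refine ⟨mem_univ _, fun l hl => ?_⟩
    have hli : l ≠ i := fun h => hl (by rw [h]; exact mem_insert_self _ _)
    rw [Pi.add_apply, hv.2 l hl, Pi.single_eq_of_ne hli, add_zero]
  apply Finset.card_bij (fun v _ => v + Pi.single i 1)
  · intro v hv
    rw [mem_filter] at hv ⊢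
    refine ⟨hb v hv.1, ?_⟩
    rw [dot_add_left, dot_single, hc, hv.2]
    decide
  · intro v _ v' _ h
    exact add_right_cancel h
  · intro v hv
    rw [mem_filter] at hv
    refine ⟨v + Pi.single i 1, ?_, by rw [add_assoc, add_self', add_zero]⟩
    rw [mem_filter]
    refine ⟨hb v hv.1, ?_⟩
    rw [dot_add_left, dot_single, hc, hv.2]
    decide

lemma four_dvd_bent (h : Amp k F j) (hk : 2 ≤ k) {c : V n} (hc0 : c ≠ 0)
    (hall : ∀ v, dot v c = 1 → j v = k) :
    4 ∣ (univ.filter fun v : V n => dot v c = 0 ∧ j v = k).card := by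
  classical
  obtain ⟨i, hi⟩ := Function.ne_iff.1 hc0
  have hc : c i = 1 := (zmod2 _).resolve_left hi
  set E := (univ : Finset (Fin n)).erase i with hE
  have hiE : i ∉ E := notMem_erase _ _
  have hins : insert i E = univ := insert_erase (mem_univ i)
  have hcardE : E.card = 2 * k - 1 := by
    rw [hE, card_erase_of_mem (mem_univ _), card_univ, Fintype.card_fin, h.hn]
  set g : Finset (Fin n) → ZMod 2 := fun R => if j (vS c i R) = k then 1 else 0 with hg
  have hg1 : ∀ R, g R = 1 ↔ j (vS c i R) = k := by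
    intro R
    simp only [hg]
    by_cases h1 : j (vS c i R) = k
    · rw [if_pos h1]; exact ⟨fun _ => h1, fun _ => rfl⟩
    · rw [if_neg h1]; exact ⟨fun h2 => absurd h2 (by decide), fun h2 => absurd h2 h1⟩
  have hbox : box (univ : Finset (Fin n)) = univ := by
    rw [box, Finset.filter_eq_self]
    intro v _ l hl
    exact absurd (mem_univ l) hl
  have hmain := four_dvd_card E (k - 1) (by omega) (by omega) g (by
    intro S hS hcard
    have hiS : i ∉ S := fun h => hiE (hS h)
    have h1 := even_bent_box h (insert i S) (by rw [card_insert_of_notMem hiS]; omega)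
    -- split according to `dot v c`
    have h2 : ((box (insert i S)).filter fun v => j v = k).card =
        (((box (insert i S)).filter fun v => dot v c = 0).filter fun v => j v = k).card +
        ((box (insert i S)).filter fun v => dot v c = 1).card := by
      rw [← Finset.card_filter_add_card_filter_not
        (s := (box (insert i S)).filter fun v => j v = k) (fun v => dot v c = 0)]
      congr 1
      · rw [filter_filter, filter_filter]
        congr 1
        ext v
        simp only [mem_filter]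
        tauto
      · congr 1
        ext v
        simp only [mem_filter]
        constructor
        · rintro ⟨⟨h3, h4⟩, h5⟩
          exact ⟨h3, (zmod2 _).resolve_left h5⟩
        · rintro ⟨h3, h4⟩
          exact ⟨⟨h3, hall v h4⟩, by rw [h4]; decide⟩
    rw [h2, card_perp' hc S hiS, card_perp_filter hc S hiS] at h1
    have h3 : Even (2 ^ S.card) := by
      rw [Nat.even_pow]
      exact ⟨even_two, by omega⟩
    have h4 : Even (S.powerset.filter fun R => j (vS c i R) = k).card :=
      (Nat.even_add.1 h1).2 h3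
    have h5 : ∑ R ∈ S.powerset, g R =
        ((S.powerset.filter fun R => j (vS c i R) = k).card : ZMod 2) := by
      simp only [hg]
      rw [Finset.sum_boole]
    rw [h5]
    obtain ⟨m, hm⟩ := h4
    rw [hm]
    push_cast
    exact zadd_self _)
  have hfin : (univ.filter fun v : V n => dot v c = 0 ∧ j v = k).card =
      (E.powerset.filter fun T => g T = 1).card := by
    have h1 := card_perp_filter hc E hiE (fun v => j v = k)
    rw [hins, hbox, filter_filter] at h1
    rw [h1]
    congr 1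
    ext R
    simp only [mem_filter, hg1]
  rw [hfin]
  exact hmain

/-- weights -/
lemma amp_split (h : Amp k F j) (v : V n) :
    ∃ t : ℤ, 0 ≤ t ∧ (4 : ℤ) ^ j v = 4 ^ k * ((if j v = k then 1 else 0) + 4 * t) ∧
      (j v ≠ k → 1 ≤ t) ∧ (j v = k → t = 0) := by
  by_cases hv : j v = k
  · exact ⟨0, le_rfl, by rw [if_pos hv, hv]; ring, fun h' => absurd hv h', fun _ => rfl⟩
  · have := h.ge v
    obtain ⟨m, hm⟩ : ∃ m, j v = k + 1 + m := ⟨j v - (k + 1), by omega⟩
    refine ⟨4 ^ m, by positivity, ?_, fun _ => ?_, fun h' => absurd h' hv⟩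
    · rw [if_neg hv, hm]; ring
    · exact one_le_pow₀ (by norm_num)

lemma core (h : Amp k F j) (hF : IsAPN F) (a b : V n) (hb : b ≠ F a) :
    ∃ t : V n → ℤ, (∀ v, 0 ≤ t v) ∧ (∀ v, j v ≠ k → 1 ≤ t v) ∧
    (3 * 4 ^ k - 2 = ∑ v, ((if j v = k then (1 : ℤ) else 0) + 4 * t v)) ∧
    (6 * (mult F (a, b) : ℤ) = ∑ v, ((if j v = k then (1 : ℤ) else 0) + 4 * t v) *
      sg (dot v (F a + b))) := by
  choose t ht0 ht1 ht2 _ using fun v => amp_split h v
  refine ⟨t, ht0, ht2, ?_, ?_⟩
  · have h1 := N3_formula h.sq a (F a)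
    rw [N3_graph hF] at h1
    have h2 : (2 : ℤ) ^ n = 4 ^ k := by rw [h.hn, pow_mul]; norm_num
    have h3 : ∀ v : V n, (4 : ℤ) ^ j v * sg (dot v (F a + F a)) =
        4 ^ k * ((if j v = k then (1 : ℤ) else 0) + 4 * t v) := by
      intro v
      rw [add_self', dot_zero_right, sg_zero, mul_one, ht1]
    rw [Finset.sum_congr rfl fun v _ => h3 v, ← Finset.mul_sum, h2] at h1
    have hpos : (0 : ℤ) < 4 ^ k := by positivity
    exact mul_left_cancel₀ hpos.ne' h1
  · have h1 := N3_formula h.sq a b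
    rw [N3_eq_mult F a b hb] at h1
    have h2 : (2 : ℤ) ^ n = 4 ^ k := by rw [h.hn, pow_mul]; norm_num
    have h3 : ∀ v : V n, (4 : ℤ) ^ j v * sg (dot v (F a + b)) =
        4 ^ k * (((if j v = k then (1 : ℤ) else 0) + 4 * t v) * sg (dot v (F a + b))) := by
      intro v
      rw [ht1]; ring
    rw [Finset.sum_congr rfl fun v _ => h3 v, ← Finset.mul_sum, h2] at h1
    have hpos : (0 : ℤ) < 4 ^ k := by positivity
    have := mul_left_cancel₀ hpos.ne' h1
    push_cast at this
    exact this

lemma perp_ne_zero {a b : V n} (hb : b ≠ F a) : F a + b ≠ 0 := by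
  intro h
  apply hb
  have := congrArg (F a + ·) h
  simp only [← add_assoc, add_self', zero_add, add_zero] at this
  exact this

lemma two_counts (h : Amp k F j) (hk : 2 ≤ k) (hF : IsAPN F) (a b : V n) (hb : b ≠ F a) :
    ∃ A B m1 m2 : ℤ, A = ((univ.filter fun v : V n => dot v (F a + b) = 0 ∧ j v = k).card : ℤ) ∧
      B = ((univ.filter fun v : V n => dot v (F a + b) = 1 ∧ j v = k).card : ℤ) ∧
      A % 2 = 0 ∧ 3 * 4 ^ k - 2 = A + B + 4 * m1 ∧
      6 * (mult F (a, b) : ℤ) = A - B + 4 * m2 := by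
  obtain ⟨t, -, -, h1, h2⟩ := core h hF a b hb
  refine ⟨_, _, ∑ v, t v, ∑ v, t v * sg (dot v (F a + b)), rfl, rfl, ?_, ?_, ?_⟩
  · have := even_bent_perp h hk (F a + b)
    rw [filter_filter] at this
    obtain ⟨m, hm⟩ := this
    rw [hm]
    push_cast
    omega
  · rw [h1, Finset.sum_add_distrib, ← Finset.mul_sum]
    congr 1
    rw [← Finset.sum_boole, ← Finset.sum_boole, ← Finset.sum_add_distrib]
    refine Finset.sum_congr rfl fun v _ => ?_
    rcases zmod2 (dot v (F a + b)) with h3 | h3
    · rw [h3]; by_cases h4 : j v = k <;> simp [h4]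
    · rw [h3]; by_cases h4 : j v = k <;> simp [h4]
  · rw [h2]
    have e : ∀ v : V n, ((if j v = k then (1 : ℤ) else 0) + 4 * t v) * sg (dot v (F a + b)) =
        ((if dot v (F a + b) = 0 ∧ j v = k then (1 : ℤ) else 0) -
          (if dot v (F a + b) = 1 ∧ j v = k then (1 : ℤ) else 0)) +
          4 * (t v * sg (dot v (F a + b))) := by
      intro v
      rcases sg_cases (dot v (F a + b)) with ⟨h3, h3'⟩ | ⟨h3, h3'⟩
      · rw [h3', h3]; by_cases h4 : j v = k <;> simp [h4]
      · rw [h3', h3]; by_cases h4 : j v = k <;> simp [h4] <;> ring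
    rw [Finset.sum_congr rfl fun v _ => e v, Finset.sum_add_distrib, Finset.sum_sub_distrib,
      ← Finset.mul_sum, Finset.sum_boole, Finset.sum_boole]

lemma odd_even_dim (h : Amp k F j) (hk : 2 ≤ k) (hF : IsAPN F) (a b : V n) (hb : b ≠ F a) :
    Odd (mult F (a, b)) := by
  obtain ⟨A, B, m1, m2, -, -, h1, h2, h3⟩ := two_counts h hk hF a b hb
  obtain ⟨m, rfl⟩ : ∃ m, k = m + 1 := ⟨k - 1, by omega⟩
  rw [pow_succ] at h2
  generalize (4 : ℤ) ^ m = q at h2
  rw [Nat.odd_iff]
  omega

/-- The maximal exclude multiplicity is not attained. -/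
lemma max_even_dim (h : Amp k F j) (hk : 2 ≤ k) (hF : IsAPN F) (a b : V n) (hb : b ≠ F a) :
    3 * mult F (a, b) < 4 ^ k - 1 := by
  by_contra hcon
  push Not at hcon
  have hcon' : (4 : ℤ) ^ k - 1 ≤ 3 * (mult F (a, b) : ℤ) := by
    have h1 : 1 ≤ 4 ^ k := Nat.one_le_pow _ _ (by norm_num)
    have : ((4 ^ k - 1 : ℕ) : ℤ) ≤ ((3 * mult F (a, b) : ℕ) : ℤ) := by exact_mod_cast hcon
    rw [Nat.cast_sub h1] at this
    push_cast at this
    exact this
  have hc0 := perp_ne_zero (F := F) hb
  obtain ⟨i, hi⟩ := Function.ne_iff.1 hc0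
  have hc : (F a + b) i = 1 := (zmod2 _).resolve_left hi
  have hbox : box (univ : Finset (Fin n)) = univ := by
    rw [box, Finset.filter_eq_self]
    intro v _ l hl
    exact absurd (mem_univ l) hl
  have hcard1 : (univ.filter fun v : V n => dot v (F a + b) = 1).card = 2 ^ (2 * k - 1) := by
    have h1 := card_perp' hc ((univ : Finset (Fin n)).erase i) (notMem_erase _ _)
    rw [insert_erase (mem_univ i), hbox, card_erase_of_mem (mem_univ _), card_univ,
      Fintype.card_fin] at h1
    rw [h1, h.hn]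
  have hall : ∀ v, dot v (F a + b) = 1 → j v = k := by
    obtain ⟨t, ht0, ht1, h1, h2⟩ := core h hF a b hb
    have h3 : ∑ v ∈ univ.filter (fun v : V n => dot v (F a + b) = 1),
        (((if j v = k then (1 : ℤ) else 0) + 4 * t v) - 1) ≤ 0 := by
      have e : ∑ v ∈ univ.filter (fun v : V n => dot v (F a + b) = 1),
          2 * ((if j v = k then (1 : ℤ) else 0) + 4 * t v) =
          (3 * 4 ^ k - 2) - 6 * (mult F (a, b) : ℤ) := by
        rw [h1, h2, ← Finset.sum_sub_distrib, Finset.sum_filter]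
        refine Finset.sum_congr rfl fun v _ => ?_
        rcases sg_cases (dot v (F a + b)) with ⟨h3, h3'⟩ | ⟨h3, h3'⟩
        · rw [h3', h3, if_neg (by decide)]; ring
        · rw [h3', h3, if_pos rfl]; ring
      rw [← Finset.mul_sum] at e
      rw [Finset.sum_sub_distrib, sum_const, nsmul_eq_mul, mul_one, hcard1]
      have h4 : 2 * ((2 ^ (2 * k - 1) : ℕ) : ℤ) = 4 ^ k := by
        have : 2 * k = (2 * k - 1) + 1 := by omega
        have h5 : (4 : ℤ) ^ k = 2 ^ (2 * k) := by rw [pow_mul]; norm_num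
        rw [h5]
        nth_rw 2 [this]
        rw [pow_succ]
        push_cast
        ring
      linarith
    intro v hv
    by_contra hvk
    have h5 : ∀ w ∈ univ.filter (fun v : V n => dot v (F a + b) = 1),
        0 ≤ (((if j w = k then (1 : ℤ) else 0) + 4 * t w) - 1) := by
      intro w _
      by_cases hw : j w = k
      · rw [if_pos hw]
        have := ht0 w
        linarith
      · rw [if_neg hw]
        have := ht1 w hw
        linarith
    have h6 := Finset.single_le_sum h5 (mem_filter.2 ⟨mem_univ v, hv⟩)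
    rw [if_neg hvk] at h6
    have := ht1 v hvk
    linarith
  obtain ⟨A, B, m1, m2, hA, hB, -, h2, -⟩ := two_counts h hk hF a b hb
  have h4 := four_dvd_bent h hk hc0 hall
  obtain ⟨q, hq⟩ := h4
  rw [hq] at hA
  have hB' : (univ.filter fun v : V n => dot v (F a + b) = 1 ∧ j v = k).card =
      2 ^ (2 * k - 1) := by
    rw [← hcard1]
    congr 1
    ext v
    simp only [mem_filter, mem_univ, true_and]
    exact ⟨fun h => h.1, fun h => ⟨h, hall v h⟩⟩
  rw [hB'] at hB
  obtain ⟨m, rfl⟩ : ∃ m, k = m + 2 := ⟨k - 2, by omega⟩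
  have e1 : 2 * (m + 2) - 1 = 2 * m + 3 := by omega
  rw [e1] at hB
  push_cast at hA hB
  rw [pow_succ, pow_succ, pow_succ] at hB
  rw [pow_succ, pow_succ] at h2
  generalize (4 : ℤ) ^ m = r at h2
  generalize (2 : ℤ) ^ (2 * m) = s at hB
  omega

lemma odd_odd_dim {m : ℕ} {F : V (2 * m + 1) → V (2 * m + 1)} (hm : 1 ≤ m) (hF : IsAPN F)
    (hP : IsPlateaued F) (a b : V (2 * m + 1)) (hb : b ≠ F a) : Odd (mult F (a, b)) := by
  choose j h1 h2 h3 _ using fun v => exists_amp hP v
  have hj0 : j 0 = 2 * m + 1 := h3 0 rfl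
  have hge : ∀ v, m + 1 ≤ j v := fun v => by have := h1 v; omega
  have hg := N3_formula h2 a (F a)
  rw [N3_graph hF] at hg
  have hg' : ∀ v : V (2 * m + 1), (4 : ℤ) ^ j v * sg (dot v (F a + F a)) = 4 ^ j v := by
    intro v
    rw [add_self', dot_zero_right, sg_zero, mul_one]
  rw [Finset.sum_congr rfl fun v _ => hg' v] at hg
  rw [← Finset.add_sum_erase univ _ (mem_univ (0 : V (2 * m + 1))), hj0] at hg
  have hcard : ((univ : Finset (V (2 * m + 1))).erase 0).card = 2 ^ (2 * m + 1) - 1 := by
    rw [card_erase_of_mem (mem_univ _), card_univ, Fintype.card_fun, ZMod.card, Fintype.card_fin]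
  have hcard' : (((univ : Finset (V (2 * m + 1))).erase 0).card : ℤ) = 2 ^ (2 * m + 1) - 1 := by
    rw [hcard, Nat.cast_sub Nat.one_le_two_pow]
    push_cast
    ring
  have hall : ∀ v, v ≠ 0 → j v = m + 1 := by
    have hsum : ∑ v ∈ (univ : Finset (V (2 * m + 1))).erase 0, ((4 : ℤ) ^ j v - 4 ^ (m + 1)) = 0 := by
      rw [Finset.sum_sub_distrib, sum_const, nsmul_eq_mul, hcard']
      have e1 : (4 : ℤ) ^ (2 * m + 1) = 2 ^ (2 * m + 1) * 2 ^ (2 * m + 1) := by
        rw [← mul_pow]; norm_num
      have e2 : (4 : ℤ) ^ (m + 1) = 2 * 2 ^ (2 * m + 1) := by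
        rw [pow_succ 2 (2 * m), pow_mul, pow_succ]
        norm_num
        ring
      rw [e1] at hg
      rw [e2]
      linarith
    intro v hv
    have hnn : ∀ w ∈ (univ : Finset (V (2 * m + 1))).erase 0,
        0 ≤ ((4 : ℤ) ^ j w - 4 ^ (m + 1)) := by
      intro w _
      have := pow_le_pow_right₀ (show (1 : ℤ) ≤ 4 by norm_num) (hge w)
      linarith
    have := (Finset.sum_eq_zero_iff_of_nonneg hnn).1 hsum v (mem_erase.2 ⟨hv, mem_univ _⟩)
    have h5 : (4 : ℤ) ^ j v = 4 ^ (m + 1) := by linarith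
    exact Nat.pow_right_injective (by norm_num : 2 ≤ 4) (by exact_mod_cast h5)
  have hb1 := N3_formula h2 a b
  rw [N3_eq_mult F a b hb, ← Finset.add_sum_erase univ _ (mem_univ (0 : V (2 * m + 1))), hj0,
    dot_zero_left, sg_zero, mul_one] at hb1
  have hr : ∀ v ∈ (univ : Finset (V (2 * m + 1))).erase 0,
      (4 : ℤ) ^ j v * sg (dot v (F a + b)) = 4 ^ (m + 1) * sg (dot v (F a + b)) := by
    intro v hv
    rw [hall v (ne_of_mem_erase hv)]
  rw [Finset.sum_congr rfl hr, ← Finset.mul_sum] at hb1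
  have hs := sum_sg_dot (F a + b)
  rw [if_neg (perp_ne_zero (F := F) hb), ← Finset.add_sum_erase univ _
    (mem_univ (0 : V (2 * m + 1))), dot_zero_left, sg_zero] at hs
  have hs' : ∑ v ∈ (univ : Finset (V (2 * m + 1))).erase 0, sg (dot v (F a + b)) = -1 := by
    linarith
  rw [hs'] at hb1
  have e1 : (4 : ℤ) ^ (2 * m + 1) = 2 ^ (2 * m + 1) * 2 ^ (2 * m + 1) := by
    rw [← mul_pow]; norm_num
  have e2 : (4 : ℤ) ^ (m + 1) = 2 * 2 ^ (2 * m + 1) := by
    rw [pow_succ 2 (2 * m), pow_mul, pow_succ]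
    norm_num
    ring
  rw [e1, e2] at hb1
  have hpos : (0 : ℤ) < 2 ^ (2 * m + 1) := by positivity
  have h6 : (6 * mult F (a, b) : ℤ) = 2 ^ (2 * m + 1) - 2 := by
    apply mul_left_cancel₀ hpos.ne'
    push_cast at hb1
    linarith
  obtain ⟨l, rfl⟩ : ∃ l, m = l + 1 := ⟨m - 1, by omega⟩
  have e3 : (2 : ℤ) ^ (2 * (l + 1) + 1) = 8 * 4 ^ l := by
    rw [show 2 * (l + 1) + 1 = 2 * l + 3 by ring, pow_add, pow_mul]
    norm_num
    ring
  rw [e3] at h6
  generalize (4 : ℤ) ^ l = q at h6
  rw [Nat.odd_iff]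
  omega

/-- All exclude multiplicities are odd. -/
theorem odd_mult {n : ℕ} (hn : 3 ≤ n) {F : V n → V n} (hF : IsAPN F) (hP : IsPlateaued F)
    (a b : V n) (hb : b ≠ F a) : Odd (mult F (a, b)) := by
  rcases Nat.even_or_odd' n with ⟨k, hk | hk⟩
  · obtain ⟨j, hj⟩ := exists_Amp hk hP
    exact odd_even_dim hj (by omega) hF a b hb
  · subst hk
    exact odd_odd_dim (by omega) hF hP a b hb

theorem max_mult {n : ℕ} (hn : 4 ≤ n) (he : Even n) {F : V n → V n} (hF : IsAPN F)
    (hP : IsPlateaued F) (a b : V n) (hb : b ≠ F a) : 3 * mult F (a, b) < 2 ^ n - 1 := by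
  obtain ⟨k, hk⟩ := he
  have hk' : n = 2 * k := by omega
  obtain ⟨j, hj⟩ := exists_Amp hk' hP
  have := max_even_dim hj (by omega) hF a b hb
  have e : (2 : ℕ) ^ n = 4 ^ k := by rw [hk', pow_mul]; norm_num
  rw [e]
  exact this

end Pool.Agent.R132.APN
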