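import Pool.Agent.R132.APN

set_option autoImplicit false

/-!
# Quadratic functions are plateaued
-/

namespace Pool.Agent.R132.APN

open Finset

/-- all derivatives are affine -/
def IsQuad {n : ℕ} (F : V n → V n) : Prop :=
  ∀ a x y, (F (x + y + a) + F (x + y)) + (F (x + a) + F x) + (F (y + a) + F y) +
    (F (0 + a) + F 0) = 0

/-- sum of a multiplicative sign over a subset closed under addition -/
lemma sum_sign_subgroup {n : ℕ} (R : Finset (V n)) (hR : ∀ x ∈ R, ∀ y ∈ R, x + y ∈ R)
    (f : V n → ZMod 2) (hf : ∀ x ∈ R, ∀ y ∈ R, f (x + y) = f x + f y) :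
    ∑ x ∈ R, sg (f x) = 0 ∨ ∑ x ∈ R, sg (f x) = R.card := by
  by_cases h : ∃ y ∈ R, f y = 1
  · left
    obtain ⟨y, hy, hy1⟩ := h
    apply Finset.sum_involution (fun x _ => x + y)
    · intro x hx
      rw [hf x hx y hy, hy1, sg_add, sg_one]
      ring
    · intro x _ _ h
      have h1 : y = 0 := by
        have := congrArg (x + ·) h
        simp only [← add_assoc, add_self', zero_add] at this
        exact this
      have h2 := hf y hy y hy
      rw [add_self', zadd_self] at h2
      rw [h1, h2] at hy1
      exact absurd hy1 (by decide)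
    · intro x hx
      exact hR x hx y hy
    · intro x _
      rw [add_assoc, add_self', add_zero]
  · right
    push Not at h
    have : ∀ x ∈ R, sg (f x) = 1 := by
      intro x hx
      rw [(zmod2 (f x)).resolve_right (h x hx), sg_zero]
    rw [Finset.sum_congr rfl this, sum_const, nsmul_eq_mul, mul_one]

lemma quad_plateaued {n : ℕ} {F : V n → V n} (hF : IsQuad F) : IsPlateaued F := by
  classical
  intro v _
  -- the second derivative of the component
  set B : V n → V n → ZMod 2 := fun x d => dot v (F (x + d)) + dot v (F x) + dot v (F d) +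
    dot v (F 0) with hB
  have hadd : ∀ x y d, B (x + y) d = B x d + B y d := by
    intro x y d
    have h := congrArg (dot v) (hF d x y)
    simp only [dot_add_right, dot_zero_right, zero_add] at h
    simp only [hB]
    have key : ∀ p q r s t w z o : ZMod 2, (p + q) + (r + s) + (t + w) + (z + o) = 0 →
        p + q + z + o = (r + s + z + o) + (t + w + z + o) := by decide
    exact key _ _ _ _ _ _ _ _ h
  have hsymm : ∀ x d, B x d = B d x := by
    intro x d
    simp only [hB]
    rw [add_comm x d]
    ring
  set R : Finset (V n) := univ.filter fun d => ∀ x, B x d = 0 with hR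
  have hRadd : ∀ x ∈ R, ∀ y ∈ R, x + y ∈ R := by
    intro x hx y hy
    rw [hR, mem_filter] at hx hy ⊢
    refine ⟨mem_univ _, fun z => ?_⟩
    rw [hsymm, hadd, ← hsymm, ← hsymm z y, hx.2, hy.2, add_zero]
  -- inner sums
  have hinner : ∀ d, ∑ x, sg (B x d) = if d ∈ R then 2 ^ n else 0 := by
    intro d
    split_ifs with h
    · rw [hR, mem_filter] at h
      simp only [h.2, sg_zero]
      simp
    · have h1 : ∃ y, B y d = 1 := by
        by_contra hcon
        push Not at hcon
        exact h (by
          rw [hR, mem_filter]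
          exact ⟨mem_univ _, fun x => (zmod2 _).resolve_right (hcon x)⟩)
      have h2 := sum_sign_subgroup (univ : Finset (V n)) (fun _ _ _ _ => mem_univ _)
        (fun x => B x d) (fun x _ y _ => hadd x y d)
      rcases h2 with h2 | h2
      · exact h2
      · exfalso
        obtain ⟨y, hy⟩ := h1
        have h3 : ∑ x : V n, (1 - sg (B x d)) = 0 := by
          rw [Finset.sum_sub_distrib, h2, sum_const, nsmul_eq_mul, mul_one, sub_self]
        have h4 : ∀ x ∈ (univ : Finset (V n)), 0 ≤ 1 - sg (B x d) := by
          intro x _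
          rcases sg_cases (B x d) with ⟨_, h5⟩ | ⟨_, h5⟩ <;> rw [h5] <;> norm_num
        have h5 := (Finset.sum_eq_zero_iff_of_nonneg h4).1 h3 y (mem_univ _)
        rw [hy, sg_one] at h5
        norm_num at h5
  have hsq : ∀ u, walsh F u v ^ 2 =
      2 ^ n * ∑ d ∈ R, sg (dot u d + dot v (F d) + dot v (F 0)) := by
    intro u
    have e1 : walsh F u v ^ 2 = ∑ x, ∑ d, sg (dot v (F x) + dot u x) *
        sg (dot v (F (x + d)) + dot u (x + d)) := by
      rw [sq]
      nth_rw 1 [walsh]
      rw [Finset.sum_mul]
      refine Finset.sum_congr rfl fun x _ => ?_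
      rw [← Finset.mul_sum]
      congr 1
      rw [walsh]
      exact (Equiv.sum_comp (Equiv.addLeft x) (fun y => sg (dot v (F y) + dot u y))).symm
    rw [e1, Finset.sum_comm]
    have e2 : ∀ d, ∑ x, sg (dot v (F x) + dot u x) * sg (dot v (F (x + d)) + dot u (x + d)) =
        sg (dot u d + dot v (F d) + dot v (F 0)) * ∑ x, sg (B x d) := by
      intro d
      rw [Finset.mul_sum]
      refine Finset.sum_congr rfl fun x _ => ?_
      rw [← sg_add, ← sg_add, dot_add_right]
      congr 1
      simp only [hB]
      have key : ∀ p q r s t w : ZMod 2, p + q + (r + (q + s)) =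
          (s + t + w) + (r + p + t + w) := by decide
      exact key _ _ _ _ _ _
    rw [Finset.sum_congr rfl fun d _ => e2 d]
    simp only [hinner]
    rw [Finset.mul_sum]
    simp only [mul_ite, mul_zero]
    rw [Finset.sum_ite_mem, univ_inter]
    refine Finset.sum_congr rfl fun d _ => ?_
    ring
  obtain ⟨r, hr⟩ : ∃ r : ℝ, r = 2 ^ n * (R.card : ℝ) := ⟨_, rfl⟩
  have hr0 : 0 ≤ r := by rw [hr]; positivity
  refine ⟨Real.sqrt r, Real.sqrt_nonneg _, fun u => ?_⟩
  have hlin : ∀ x ∈ R, ∀ y ∈ R, dot u (x + y) + dot v (F (x + y)) + dot v (F 0) =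
      (dot u x + dot v (F x) + dot v (F 0)) + (dot u y + dot v (F y) + dot v (F 0)) := by
    intro x hx y _
    rw [hR, mem_filter] at hx
    have h1 := hx.2 y
    simp only [hB] at h1
    rw [add_comm y x] at h1
    rw [dot_add_right]
    have key : ∀ p q r s t w : ZMod 2, p + q + r + s = 0 →
        t + w + p + s = (t + r + s) + (w + q + s) := by decide
    exact key _ _ _ _ _ _ h1
  have h1 := sum_sign_subgroup R hRadd (fun d => dot u d + dot v (F d) + dot v (F 0)) hlin
  have h2 := hsq u
  rcases h1 with h1 | h1
  · left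
    rw [h1, mul_zero] at h2
    have : walsh F u v = 0 := pow_eq_zero_iff two_ne_zero |>.1 h2
    rw [this]
    exact Int.cast_zero
  · right
    rw [h1] at h2
    generalize walsh F u v = w at h2
    have h3 : (w : ℝ) ^ 2 = r := by
      have := congrArg (fun z : ℤ => (z : ℝ)) h2
      simp only [Int.cast_mul, Int.cast_pow, Int.cast_natCast, Int.cast_ofNat] at this
      rw [hr]
      exact this
    have h4 : Real.sqrt r ^ 2 = r := Real.sq_sqrt hr0
    exact sq_eq_sq_iff_eq_or_eq_neg.1 (h3.trans h4.symm)

end Pool.Agent.R132.APN
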