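import Mathlib

set_option autoImplicit false

/-!
# The kernel search for the problem MP_abc6c1

`D` is the bit mask of the set `Δ` of all `(x + x', f x + f x')`, encoded as `a + 32 b`, where `f` is the
inverse function of the field with 32 elements, given by the table `tab`. `search4`: no affine
flat `v + E` of dimension 5 with `v` in `{1, 35, 38, 39}` avoids `Δ`.
-/

namespace Pool.Agent.R132.CCZ

/-- the table of the function -/
def tab : List Nat := [0, 1, 18, 28, 9, 23, 14, 12, 22, 4, 25, 16, 7, 15, 6, 13, 11, 24, 2, 29, 30, 26, 8, 5, 17,
  10, 21, 31, 3, 19, 20, 27]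

/-- the bit mask of the set of the differences of the graph -/
def D : Nat := 166011318380479475647209166971174094299253105570626687255103894393598095407390579474180480204810042034920286534494928717788301170174984493647625451075399685830805500295614639236886484962497145137152160339339336098219437511900957482059962496507404225035135049755373706083326740415674533012778168576246959570945

/-- `i` is not in the set -/
def out (i : Nat) : Bool := Nat.beq (Nat.land (Nat.shiftRight D i) 1) 0

/-- `x xor w` is not in the set for all `w` in the list -/
noncomputable def outAll (x : Nat) (W : List Nat) : Bool :=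
  List.rec (motive := fun _ => Bool) true (fun w _ ih => Bool.rec false ih (Nat.beq (Nat.land (Nat.shiftRight D (Nat.xor x w)) 1) 0)) W

/-- the elements `x` of the list with bit `l` zero and `x xor w` not in the set for `w` in `W` -/
noncomputable def fil (l : Nat) (W : List Nat) (A : List Nat) : List Nat :=
  List.rec (motive := fun _ => List Nat) []
    (fun x _ ih => Bool.rec ih (Bool.rec ih (x :: ih) (outAll x W)) (Nat.beq (Nat.land x l) 0)) A

def lead (e : Nat) : Nat :=
  cond (Nat.ble 512 e) 512 <| cond (Nat.ble 256 e) 256 <| cond (Nat.ble 128 e) 128 <|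
  cond (Nat.ble 64 e) 64 <| cond (Nat.ble 32 e) 32 <| cond (Nat.ble 16 e) 16 <|
  cond (Nat.ble 8 e) 8 <| cond (Nat.ble 4 e) 4 <| cond (Nat.ble 2 e) 2 1

noncomputable def mp (e : Nat) (W : List Nat) : List Nat :=
  List.rec (motive := fun _ => List Nat) [] (fun x _ ih => Nat.xor x e :: ih) W

noncomputable def isNil (A : List Nat) : Bool := List.rec (motive := fun _ => Bool) true (fun _ _ _ => false) A

noncomputable def loop (R : List Nat → List Nat → Bool) (W : List Nat) (lim : Nat) (A : List Nat) : Bool :=
  List.rec (motive := fun _ => Bool) true (fun e t ih =>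
    Bool.rec (
      Bool.rec false ih (R (List.append (mp e W) W) (fil (lead e) (mp e W) t))) true (Nat.ble lim e)) A

noncomputable def ref (r : Nat) : List Nat → List Nat → Bool :=
  Nat.rec (motive := fun _ => List Nat → List Nat → Bool) (fun _ A => isNil A) (fun r ih W A =>
    loop ih W (Nat.pow 2 (Nat.sub 9 r)) A) r


set_option maxRecDepth 100000 in
theorem search4 : ref 4 [1] (fil 0 [1] ((List.range 1024).drop 1)) = true ∧
    ref 4 [35] (fil 0 [35] ((List.range 1024).drop 1)) = true ∧
    ref 4 [38] (fil 0 [38] ((List.range 1024).drop 1)) = true ∧
    ref 4 [39] (fil 0 [39] ((List.range 1024).drop 1)) = true := by decide +kernel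

end Pool.Agent.R132.CCZ
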