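import Mathlib

set_option autoImplicit false

/-!
# Vanishing of multilinear forms on products of subspaces of bounded codimension

`exists_common`: if `T` is a multilinear form, then there are subspaces `W i` of codimension bounded
by a constant depending on the number of the variables and `k` only, such that for all families `U` of
subspaces with `T = 0` on `∏ U i` and `∑ codim (U i) ≤ k`, `T = 0` on `∏ (U i + W i)`.
-/

namespace Pool.Agent.R132.SliceRank

open Finset Module

universe u v w

section

variable {F : Type u} [Field F] {V : Type v} [AddCommGroup V] [Module F V] [FiniteDimensional F V]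

lemma codim_inf (A B : Submodule F V) :
    finrank F (V ⧸ (A ⊓ B)) ≤ finrank F (V ⧸ A) + finrank F (V ⧸ B) := by
  have h1 := Submodule.finrank_sup_add_finrank_inf_eq A B
  have h2 := Submodule.finrank_quotient_add_finrank (A ⊓ B)
  have h3 := Submodule.finrank_quotient_add_finrank A
  have h4 := Submodule.finrank_quotient_add_finrank B
  have h5 := Submodule.finrank_le (A ⊔ B)
  omega

lemma codim_finset_inf {κ : Type*} (s : Finset κ) (B : κ → Submodule F V) :
    finrank F (V ⧸ (s.inf B)) ≤ ∑ i ∈ s, finrank F (V ⧸ B i) := by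
  classical
  induction s using Finset.induction_on with
  | empty =>
    have := Submodule.finrank_quotient_add_finrank (⊤ : Submodule F V)
    rw [finrank_top] at this
    rw [sum_empty, Finset.inf_empty]
    omega
  | insert a s ha ih =>
    rw [Finset.inf_insert, sum_insert ha]
    exact (codim_inf _ _).trans (by omega)

lemma gens (W : Submodule F V) : ∃ (φ : Fin (finrank F (V ⧸ W)) → V)
    (ψ : Fin (finrank F (V ⧸ W)) → V →ₗ[F] F), ∀ x, x - ∑ i, ψ i x • φ i ∈ W := by
  let b := finBasis F (V ⧸ W)
  have h1 : ∀ i, ∃ v : V, W.mkQ v = b i := fun i => Submodule.mkQ_surjective W (b i)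
  choose φ hφ using h1
  refine ⟨φ, fun i => b.coord i ∘ₗ W.mkQ, fun x => ?_⟩
  rw [← Submodule.Quotient.mk_eq_zero, ← Submodule.mkQ_apply, map_sub, map_sum, sub_eq_zero]
  simp only [map_smul, hφ, LinearMap.comp_apply]
  exact (b.sum_repr (W.mkQ x)).symm

end

section

variable {F : Type u} [Field F] {ι : Type v} [Fintype ι] [DecidableEq ι] {V : ι → Type w}
  [∀ i, AddCommGroup (V i)] [∀ i, Module F (V i)] [∀ i, FiniteDimensional F (V i)]

/-- the families `U` of subspaces with `T = 0` on `∏ U i` and `∑ codim (U i) ≤ k` -/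
def Adm (T : MultilinearMap F V F) (k : ℕ) (U : ∀ i, Submodule F (V i)) : Prop :=
  (∀ u : ∀ i, V i, (∀ i, u i ∈ U i) → T u = 0) ∧ ∑ i, finrank F (V i ⧸ U i) ≤ k

/-- `W` is good for `J` -/
def Good (T : MultilinearMap F V F) (k : ℕ) (J : Finset ι) (W : ∀ i, Submodule F (V i)) : Prop :=
  ∀ U, Adm T k U → ∀ u w : ∀ i, V i, (∀ i, u i ∈ U i) → (∀ i, w i ∈ W i) →
    T (J.piecewise u w) = 0

lemma step (T : MultilinearMap F V F) (k : ℕ) (J : Finset ι) (D : ℕ)
    (W : ∀ i, Submodule F (V i)) (hW : ∀ i, finrank F (V i ⧸ W i) ≤ D)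
    (hJ : ∀ J', J' ⊂ J → Good T k J' W) :
    ∃ W' : ∀ i, Submodule F (V i), (∀ i, finrank F (V i ⧸ W' i) ≤
      D + (D + 1) ^ Fintype.card ι * k) ∧ Good T k J W' := by
  classical
  -- generators of a complement
  have hg : ∀ i, ∃ g : Option (Fin (finrank F (V i ⧸ W i))) → V i, ∀ x : V i,
      ∃ c : Option (Fin (finrank F (V i ⧸ W i))) → F, x - ∑ t, c t • g t ∈ W i := by
    intro i
    obtain ⟨φ, ψ, h⟩ := gens (W i)
    refine ⟨fun t => t.elim 0 φ, fun x => ⟨fun t => t.elim 0 fun j => ψ j x, ?_⟩⟩
    rw [Fintype.sum_option]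
    simpa using h x
  choose g hg using hg
  -- functions
  let h : (∀ i, V i) → ((∀ l, W l) → F) := fun c y => T (J.piecewise c (fun l => (y l : V l)))
  let H : Submodule F ((∀ l, W l) → F) :=
    Submodule.span F (Set.range fun φ : (∀ i, Option (Fin (finrank F (V i ⧸ W i)))) =>
      h fun i => g i (φ i))
  have hHfin : FiniteDimensional F H := FiniteDimensional.span_of_finite F (Set.finite_range _)
  have hHrank : finrank F H ≤ (D + 1) ^ Fintype.card ι := by
    have := finrank_range_le_card (R := F)
      (fun φ : (∀ i, Option (Fin (finrank F (V i ⧸ W i)))) => h fun i => g i (φ i))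
    rw [Set.finrank] at this
    refine this.trans ?_
    rw [Fintype.card_pi, ← card_univ (α := ι), ← prod_const]
    refine prod_le_prod' fun i _ => ?_
    rw [Fintype.card_option, Fintype.card_fin]
    exact Nat.succ_le_succ (hW i)
  let E : Set ((∀ l, W l) → F) := {f | f ∈ H ∧ ∃ B : ∀ l, Submodule F (V l),
    ∑ l, finrank F (V l ⧸ B l) ≤ k ∧ ∀ y : ∀ l, W l, (∀ l, (y l : V l) ∈ B l) → f y = 0}
  have hEH : Submodule.span F E ≤ H := Submodule.span_le.2 fun f hf => hf.1
  have hEfin : Module.Finite F (Submodule.span F E) :=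
    Submodule.finiteDimensional_of_le hEH
  obtain ⟨b, hbE, hbcard, hbspan, -⟩ := Submodule.exists_finset_span_eq_linearIndepOn F E
  have hbcard2 : b.card ≤ (D + 1) ^ Fintype.card ι := by
    rw [hbcard]
    exact (Submodule.finrank_mono hEH).trans hHrank
  have hB : ∀ f : ((∀ l, W l) → F), ∃ B : ∀ l, Submodule F (V l), f ∈ b →
      (∑ l, finrank F (V l ⧸ B l) ≤ k ∧ ∀ y : ∀ l, W l, (∀ l, (y l : V l) ∈ B l) → f y = 0) := by
    intro f
    by_cases hf : f ∈ b
    · obtain ⟨-, B, h1, h2⟩ := hbE hf
      exact ⟨B, fun _ => ⟨h1, h2⟩⟩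
    · exact ⟨fun _ => ⊤, fun h => absurd h hf⟩
  choose B hB using hB
  refine ⟨fun l => W l ⊓ b.inf fun f => B f l, ?_, ?_⟩
  · intro l
    refine (codim_inf _ _).trans (add_le_add (hW l) ?_)
    refine (codim_finset_inf _ _).trans ?_
    calc ∑ f ∈ b, finrank F (V l ⧸ B f l) ≤ ∑ f ∈ b, k := by
          refine sum_le_sum fun f hf => ?_
          refine le_trans ?_ (hB f hf).1
          exact single_le_sum (f := fun l => finrank F (V l ⧸ B f l))
            (fun _ _ => Nat.zero_le _) (mem_univ l)
      _ = b.card * k := by rw [sum_const, smul_eq_mul]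
      _ ≤ _ := Nat.mul_le_mul_right _ hbcard2
  · intro U hU u w hu hw
    -- the function h u is in E
    have hc : ∀ i, ∃ c : Option (Fin (finrank F (V i ⧸ W i))) → F,
        u i - ∑ t, c t • g i t ∈ W i := fun i => hg i (u i)
    choose c hc using hc
    have hucs : h u = h (fun i => ∑ t, c i t • g i t) := by
      funext y
      set x : ∀ i, V i := fun i => ∑ t, c i t • g i t with hx
      let y' : ∀ i, V i := J.piecewise (x - u) (fun l => (y l : V l))
      have hy' : ∀ i, y' i ∈ W i := by
        intro i
        by_cases hi : i ∈ J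
        · simp only [y', hi, piecewise_eq_of_mem, Pi.sub_apply]
          rw [← neg_sub]
          exact (W i).neg_mem (hc i)
        · simp only [y', hi, not_false_eq_true, piecewise_eq_of_notMem]
          exact (y i).2
      have h1 : J.piecewise x (fun l => (y l : V l)) = J.piecewise (u + y') y' := by
        funext i
        by_cases hi : i ∈ J
        · simp [y', hi]
        · simp [y', hi]
      have h2 : J.piecewise u (fun l => (y l : V l)) = J.piecewise u y' := by
        funext i
        by_cases hi : i ∈ J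
        · simp [hi]
        · simp [y', hi]
      simp only [h]
      rw [h1, h2, MultilinearMap.map_piecewise_add]
      symm
      refine sum_eq_single J (fun J' hJ' hne => ?_) (fun hJ' => absurd (mem_powerset_self J) hJ')
      exact hJ J' (lt_of_le_of_ne (mem_powerset.1 hJ') hne) U hU u y' hu hy'
    have hHmem : h u ∈ H := by
      rw [hucs]
      have h1 : h (fun i => ∑ t, c i t • g i t) =
          ∑ r ∈ Fintype.piFinset fun i => if i ∈ J then univ else {none},
            (∏ i ∈ J, c i (r i)) • h (fun i => g i (r i)) := by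
        funext y
        simp only [h]
        let G : ∀ i, Option (Fin (finrank F (V i ⧸ W i))) → V i := fun i t =>
          if i ∈ J then c i t • g i t else (y i : V i)
        have h2 : J.piecewise (fun i => ∑ t, c i t • g i t) (fun l => (y l : V l)) =
            fun i => ∑ t ∈ (if i ∈ J then univ else {none}), G i t := by
          funext i
          by_cases hi : i ∈ J
          · simp [G, hi]
          · simp [G, hi]
        rw [h2, MultilinearMap.map_sum_finset, Finset.sum_apply]
        refine sum_congr rfl fun r _ => ?_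
        rw [Pi.smul_apply, ← MultilinearMap.map_piecewise_smul]
        congr 1
        funext i
        by_cases hi : i ∈ J
        · simp [G, hi]
        · simp [G, hi]
      rw [h1]
      exact Submodule.sum_mem _ fun r _ => Submodule.smul_mem _ _
        (Submodule.subset_span ⟨r, rfl⟩)
    have hE : h u ∈ E := by
      refine ⟨hHmem, U, hU.2, fun y hy => hU.1 _ fun i => ?_⟩
      by_cases hi : i ∈ J
      · simp only [hi, piecewise_eq_of_mem]; exact hu i
      · simp only [hi, not_false_eq_true, piecewise_eq_of_notMem]; exact hy i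
    have hspan : h u ∈ Submodule.span F (b : Set ((∀ l, W l) → F)) := by
      rw [hbspan]
      exact Submodule.subset_span hE
    have hwW : ∀ l, w l ∈ W l := fun l => (hw l).1
    let y : ∀ l, W l := fun l => ⟨w l, hwW l⟩
    have hvan : ∀ f ∈ Submodule.span F (b : Set ((∀ l, W l) → F)), f y = 0 := by
      intro f hf
      induction hf using Submodule.span_induction with
      | mem f hf =>
        refine (hB f hf).2 y fun l => ?_
        have h1 : w l ∈ b.inf fun f => B f l := (hw l).2
        have h2 : (b.inf fun f => B f l) ≤ B f l := Finset.inf_le hf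
        exact h2 h1
      | zero => rfl
      | add f1 f2 _ _ h1 h2 => rw [Pi.add_apply, h1, h2, add_zero]
      | smul r f _ h1 => rw [Pi.smul_apply, h1, smul_zero]
    exact hvan _ hspan

/-- the bounds -/
def bnd (d k : ℕ) : ℕ → ℕ
  | 0 => k
  | s + 1 => 2 ^ d * bnd d k s + (2 ^ d * bnd d k s + 1) ^ d * k

lemma exists_good (T : MultilinearMap F V F) (k : ℕ) (s : ℕ) :
    ∀ J : Finset ι, J.card ≤ s → ∃ W : ∀ i, Submodule F (V i),
      (∀ i, finrank F (V i ⧸ W i) ≤ bnd (Fintype.card ι) k s) ∧ Good T k J W := by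
  classical
  induction s with
  | zero =>
    intro J hJ
    have hJ0 : J = ∅ := card_eq_zero.1 (Nat.le_zero.1 hJ)
    obtain ⟨W', h1, h2⟩ := step T k J 0 (fun _ => ⊤) (fun i => by
      have := Submodule.finrank_quotient_add_finrank (⊤ : Submodule F (V i))
      rw [finrank_top] at this
      omega) (fun J' hJ' => by
        rw [hJ0] at hJ'
        exact absurd hJ' (not_ssubset_empty J'))
    refine ⟨W', fun i => (h1 i).trans ?_, h2⟩
    simp [bnd]
  | succ s ih =>
    intro J hJ
    have h0 : ∀ J' : Finset ι, ∃ W : ∀ i, Submodule F (V i), J' ⊂ J →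
        ((∀ i, finrank F (V i ⧸ W i) ≤ bnd (Fintype.card ι) k s) ∧ Good T k J' W) := by
      intro J'
      by_cases hs : J' ⊂ J
      · obtain ⟨W, hW⟩ := ih J' (by have := card_lt_card hs; omega)
        exact ⟨W, fun _ => hW⟩
      · exact ⟨fun _ => ⊤, fun h => absurd h hs⟩
    choose W hW using h0
    obtain ⟨W', h1, h2⟩ := step T k J (2 ^ (Fintype.card ι) * bnd (Fintype.card ι) k s)
      (fun i => J.ssubsets.inf fun J' => W J' i) (fun i => by
        refine (codim_finset_inf _ _).trans ?_
        calc _ ≤ ∑ J' ∈ J.ssubsets, bnd (Fintype.card ι) k s :=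
              sum_le_sum fun J' hJ' => (hW J' (mem_ssubsets.1 hJ')).1 i
          _ = J.ssubsets.card * bnd (Fintype.card ι) k s := by rw [sum_const, smul_eq_mul]
          _ ≤ _ := by
            refine Nat.mul_le_mul_right _ ?_
            rw [← Fintype.card_finset]
            exact card_le_univ _) (fun J' hJ' U hU u w hu hw => by
        refine (hW J' hJ').2 U hU u w hu fun i => ?_
        exact (Finset.inf_le (mem_ssubsets.2 hJ') : _ ≤ W J' i) (hw i))
    exact ⟨W', h1, h2⟩

/-- the common subspaces -/
theorem exists_common (T : MultilinearMap F V F) (k : ℕ) :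
    ∃ W : ∀ i, Submodule F (V i),
      (∀ i, finrank F (V i ⧸ W i) ≤
        2 ^ Fintype.card ι * bnd (Fintype.card ι) k (Fintype.card ι)) ∧
      ∀ U, Adm T k U → ∀ v : ∀ i, V i, (∀ i, v i ∈ U i ⊔ W i) → T v = 0 := by
  classical
  have h0 : ∀ J : Finset ι, ∃ W : ∀ i, Submodule F (V i),
      (∀ i, finrank F (V i ⧸ W i) ≤ bnd (Fintype.card ι) k (Fintype.card ι)) ∧ Good T k J W :=
    fun J => exists_good T k _ J (card_le_univ _)
  choose W hW using h0
  refine ⟨fun i => univ.inf fun J => W J i, fun i => ?_, fun U hU v hv => ?_⟩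
  · refine (codim_finset_inf _ _).trans ?_
    calc _ ≤ ∑ J : Finset ι, bnd (Fintype.card ι) k (Fintype.card ι) :=
          sum_le_sum fun J _ => (hW J).1 i
      _ = _ := by rw [sum_const, smul_eq_mul, card_univ, Fintype.card_finset]
  · have h1 : ∀ i, ∃ u w : V i, u ∈ U i ∧ (∀ J, w ∈ W J i) ∧ u + w = v i := by
      intro i
      obtain ⟨u, hu, w, hw, h⟩ := Submodule.mem_sup.1 (hv i)
      exact ⟨u, w, hu, fun J => (Finset.inf_le (mem_univ J) : _ ≤ W J i) hw, h⟩
    choose u w hu hw huw using h1
    have h2 : v = u + w := by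
      funext i
      exact (huw i).symm
    rw [h2, MultilinearMap.map_add_univ]
    exact sum_eq_zero fun J _ => (hW J).2 U hU u w hu fun i => hw i J

/-- the common subspaces are contained in all minimal families -/
theorem exists_le (T : MultilinearMap F V F) (k : ℕ)
    (hmin : ∀ U : ∀ i, Submodule F (V i), (∀ u : ∀ i, V i, (∀ i, u i ∈ U i) → T u = 0) →
      k ≤ ∑ i, finrank F (V i ⧸ U i)) :
    ∃ W : ∀ i, Submodule F (V i),
      (∀ i, finrank F (V i ⧸ W i) ≤
        2 ^ Fintype.card ι * bnd (Fintype.card ι) k (Fintype.card ι)) ∧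
      ∀ U, Adm T k U → ∀ i, W i ≤ U i := by
  obtain ⟨W, hW, h⟩ := exists_common T k
  refine ⟨W, hW, fun U hU => ?_⟩
  have h1 := hmin (fun i => U i ⊔ W i) (h U hU)
  have h2 : ∀ i ∈ univ, finrank F (V i ⧸ (U i ⊔ W i)) ≤ finrank F (V i ⧸ U i) := by
    intro i _
    have h3 := Submodule.finrank_quotient_add_finrank (U i ⊔ W i)
    have h4 := Submodule.finrank_quotient_add_finrank (U i)
    have h5 := Submodule.finrank_mono (le_sup_left : U i ≤ U i ⊔ W i)
    omega
  have h3 : ∑ i, finrank F (V i ⧸ (U i ⊔ W i)) = ∑ i, finrank F (V i ⧸ U i) :=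
    le_antisymm (sum_le_sum h2) (hU.2.trans h1)
  have h4 := (sum_eq_sum_iff_of_le h2).1 h3
  intro i
  have h5 : U i = U i ⊔ W i := by
    refine Submodule.eq_of_le_of_finrank_eq le_sup_left ?_
    have h6 := Submodule.finrank_quotient_add_finrank (U i ⊔ W i)
    have h7 := Submodule.finrank_quotient_add_finrank (U i)
    have h8 := h4 i (mem_univ i)
    omega
  rw [h5]
  exact le_sup_right

end

end Pool.Agent.R132.SliceRank
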