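import Mathlib

set_option autoImplicit false

/-!
# Strong locally irregular colourings of digraphs: a constant bound
-/

open Finset

namespace Pool.Agent.R132.Slir

variable {V : Type*} [Fintype V] [DecidableEq V]

/-- The balanced degree of `v` in the arc set `B`: the number of arcs of `B` leaving `v` minus the
number of arcs of `B` entering `v`. -/
def bal (B : Finset (V × V)) (v : V) : ℤ :=
  ((B.filter fun a => a.1 = v).card : ℤ) - ((B.filter fun a => a.2 = v).card : ℤ)

/-- Strong locally irregular arc sets. -/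
def SLI (B : Finset (V × V)) : Prop := ∀ a ∈ B, bal B a.1 ≠ bal B a.2

omit [Fintype V] in
theorem SLI.cut {B : Finset (V × V)} (P : V → Prop) (h : ∀ a ∈ B, P a.1 ∧ ¬ P a.2) : SLI B := by
  intro a ha
  have h1 : 0 < bal B a.1 := by
    unfold bal
    have e : (B.filter fun b => b.2 = a.1) = ∅ := by
      rw [filter_eq_empty_iff]
      intro b hb hba
      exact (h b hb).2 (hba ▸ (h a ha).1)
    have p : 0 < (B.filter fun b => b.1 = a.1).card := card_pos.2 ⟨a, by simp [ha]⟩
    rw [e, card_empty]
    omega
  have h2 : bal B a.2 < 0 := by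
    unfold bal
    have e : (B.filter fun b => b.1 = a.2) = ∅ := by
      rw [filter_eq_empty_iff]
      intro b hb hba
      exact (h a ha).2 (hba ▸ (h b hb).1)
    have p : 0 < (B.filter fun b => b.2 = a.2).card := card_pos.2 ⟨a, by simp [ha]⟩
    rw [e, card_empty]
    omega
  omega

omit [Fintype V] in
theorem bal_swap (B : Finset (V × V)) (v : V) : bal (B.image Prod.swap) v = - bal B v := by
  unfold bal
  have h1 : ((B.image Prod.swap).filter fun a => a.1 = v).card = (B.filter fun a => a.2 = v).card := by
    rw [filter_image, card_image_of_injective _ Prod.swap_injective]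
    rfl
  have h2 : ((B.image Prod.swap).filter fun a => a.2 = v).card = (B.filter fun a => a.1 = v).card := by
    rw [filter_image, card_image_of_injective _ Prod.swap_injective]
    rfl
  rw [h1, h2]
  ring

omit [Fintype V] in
theorem SLI.of_swap {B : Finset (V × V)} (h : SLI (B.image Prod.swap)) : SLI B := by
  intro a ha
  have := h a.swap (mem_image.2 ⟨a, ha, rfl⟩)
  rw [bal_swap, bal_swap] at this
  intro h'
  apply this
  simp only [Prod.fst_swap, Prod.snd_swap]
  rw [h']

/-- greedy list colouring -/
theorem list_color (N : V → Finset V) (hs : ∀ x y, y ∈ N x → x ∈ N y) (hi : ∀ x, x ∉ N x)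
    (L : V → Finset ℤ) (hL : ∀ x, (N x).card < (L x).card) :
    ∃ f : V → ℤ, (∀ x, f x ∈ L x) ∧ ∀ x, ∀ y ∈ N x, f y ≠ f x := by
  suffices h : ∀ W : Finset V, ∃ f : V → ℤ, (∀ x, f x ∈ L x) ∧
      ∀ x ∈ W, ∀ y ∈ N x, y ∈ W → f y ≠ f x by
    obtain ⟨f, h1, h2⟩ := h univ
    exact ⟨f, h1, fun x y hy => h2 x (mem_univ _) y hy (mem_univ _)⟩
  intro W
  induction W using Finset.induction_on with
  | empty =>
    choose g hg using fun x => card_pos.1 (lt_of_le_of_lt (Nat.zero_le _) (hL x))
    exact ⟨g, hg, by simp⟩
  | insert a W ha ih =>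
    obtain ⟨f, h1, h2⟩ := ih
    have hc : ((N a).image f).card < (L a).card := lt_of_le_of_lt card_image_le (hL a)
    obtain ⟨t, ht, ht'⟩ := exists_mem_notMem_of_card_lt_card hc
    refine ⟨Function.update f a t, ?_, ?_⟩
    · intro x
      by_cases hx : x = a
      · subst hx; simpa using ht
      · simp [hx, h1]
    · intro x hx y hy hyW
      by_cases hxa : x = a
      · subst hxa
        have hyx : y ≠ x := by rintro rfl; exact hi _ hy
        simp only [Function.update_self, Function.update_of_ne hyx]
        intro h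
        exact ht' (mem_image.2 ⟨y, hy, h⟩)
      · by_cases hya : y = a
        · subst hya
          simp only [Function.update_self, Function.update_of_ne hxa]
          intro h
          exact ht' (mem_image.2 ⟨x, hs _ _ hy, h.symm⟩)
        · simp only [Function.update_of_ne hxa, Function.update_of_ne hya]
          exact h2 x ((mem_insert.1 hx).resolve_left hxa) y hy
            ((mem_insert.1 hyW).resolve_left hya)

/-- The rotational tournament on nine parts: the part `i` controls the next four parts. -/
def ctrl (i j : Fin 9) : Prop := j - i ∈ ({1, 2, 3, 4} : Finset (Fin 9))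

instance : DecidableRel ctrl := fun i j => by unfold ctrl; infer_instance

theorem ctrl_irrefl : ∀ i, ¬ ctrl i i := by decide

theorem ctrl_asymm : ∀ i j, ctrl i j → ¬ ctrl j i := by decide

theorem ctrl_iff : ∀ i j, ctrl i j ↔ (j = i + 1 ∨ j = i + 2) ∨ (j = i + 3 ∨ j = i + 4) := by decide

/-- a locally optimal partition into nine parts -/
theorem exists_cut (A : Finset (V × V)) (hA : ∀ a ∈ A, a.1 ≠ a.2) :
    ∃ c : V → Fin 9, ∀ x j,
      (A.filter fun a => a.1 = x ∧ c a.2 = c x).card +
        (A.filter fun a => a.2 = x ∧ c a.1 = c x).card ≤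
      (A.filter fun a => a.1 = x ∧ c a.2 = j).card +
        (A.filter fun a => a.2 = x ∧ c a.1 = j).card := by
  obtain ⟨c, hc⟩ := Finite.exists_min
    (fun c : V → Fin 9 => (A.filter fun a => c a.1 = c a.2).card)
  refine ⟨c, fun x j => ?_⟩
  have key : ∀ d : V → Fin 9, (∀ y, y ≠ x → d y = c y) →
      (A.filter fun a => d a.1 = d a.2).card =
      (A.filter fun a => a.1 ≠ x ∧ a.2 ≠ x ∧ c a.1 = c a.2).card +
        ((A.filter fun a => a.1 = x ∧ c a.2 = d x).card +
          (A.filter fun a => a.2 = x ∧ c a.1 = d x).card) := by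
    intro d hd
    rw [← card_union_of_disjoint, ← card_union_of_disjoint]
    · congr 1
      ext a
      simp only [mem_filter, mem_union]
      constructor
      · rintro ⟨h1, h2⟩
        by_cases h3 : a.1 = x
        · have h4 : a.2 ≠ x := fun h => hA a h1 (h3.trans h.symm)
          right; left
          exact ⟨h1, h3, by rw [← hd _ h4, ← h2, h3]⟩
        · by_cases h4 : a.2 = x
          · right; right
            exact ⟨h1, h4, by rw [← hd _ h3, h2, h4]⟩
          · left
            exact ⟨h1, h3, h4, by rw [← hd _ h3, ← hd _ h4, h2]⟩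
      · rintro (⟨h1, h2, h3, h4⟩ | ⟨h1, h2, h3⟩ | ⟨h1, h2, h3⟩)
        · exact ⟨h1, by rw [hd _ h2, hd _ h3, h4]⟩
        · have h4 : a.2 ≠ x := fun h => hA a h1 (h2.trans h.symm)
          exact ⟨h1, by rw [h2, hd _ h4, h3]⟩
        · have h4 : a.1 ≠ x := fun h => hA a h1 (h.trans h2.symm)
          exact ⟨h1, by rw [h2, hd _ h4, h3]⟩
    · rw [disjoint_left]
      intro a h1 h2
      simp only [mem_filter, mem_union] at h1 h2
      tauto
    · rw [disjoint_left]
      intro a h1 h2
      simp only [mem_filter] at h1 h2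
      exact hA a h1.1 (h1.2.1.trans h2.2.1.symm)
  have h := hc (Function.update c x j)
  rw [key c (fun _ _ => rfl), key (Function.update c x j)
    (fun y hy => Function.update_of_ne hy _ _), Function.update_self] at h
  omega

/-- The main construction, one direction. -/
theorem core (A : Finset (V × V)) (hA : ∀ a ∈ A, a.1 ≠ a.2) (c : V → Fin 9) (O : V → Prop)
    [DecidablePred O]
    (hO : ∀ x, O x → 2 * ((A.filter fun a => a.1 = x ∧ c a.2 = c x).card +
        (A.filter fun a => a.2 = x ∧ c a.1 = c x).card)
      ≤ (A.filter fun a => a.1 = x ∧ ctrl (c x) (c a.2)).card) :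
    ∃ T : Finset (V × V), (∀ a ∈ T, a ∈ A ∧ O a.1 ∧ ctrl (c a.1) (c a.2)) ∧
      ∀ i, SLI (A.filter fun a => c a.1 = i ∧ O a.1 ∧ ((c a.2 = i ∧ O a.2) ∨ a ∈ T)) := by
  classical
  set q : V → ℕ := fun x => (A.filter fun a => a.1 = x ∧ c a.2 = c x ∧ O a.2).card with hq
  set p : V → ℕ := fun x => (A.filter fun a => a.2 = x ∧ c a.1 = c x ∧ O a.1).card with hp
  set R : V → Finset (V × V) := fun x => A.filter fun a => a.1 = x ∧ ctrl (c x) (c a.2) with hR
  have hr : ∀ x, O x → 2 * (q x + p x) ≤ (R x).card := by
    intro x hx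
    refine le_trans ?_ (hO x hx)
    have h1 : q x ≤ (A.filter fun a => a.1 = x ∧ c a.2 = c x).card :=
      card_le_card (fun a ha => by simp only [mem_filter] at ha ⊢; tauto)
    have h2 : p x ≤ (A.filter fun a => a.2 = x ∧ c a.1 = c x).card :=
      card_le_card (fun a ha => by simp only [mem_filter] at ha ⊢; tauto)
    omega
  let N : V → Finset V := fun x => univ.filter fun y =>
    O x ∧ O y ∧ c x = c y ∧ ((x, y) ∈ A ∨ (y, x) ∈ A)
  let L : V → Finset ℤ := fun x =>
    if O x then Icc (max 0 ((q x : ℤ) - p x)) ((q x : ℤ) - p x + (R x).card) else {0}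
  have hN : ∀ x, O x → (N x).card ≤ q x + p x := by
    intro x _
    have hsub : N x ⊆ ((A.filter fun a => a.1 = x ∧ c a.2 = c x ∧ O a.2).image Prod.snd) ∪
        ((A.filter fun a => a.2 = x ∧ c a.1 = c x ∧ O a.1).image Prod.fst) := by
      intro y hy
      simp only [N, mem_filter, mem_univ, true_and] at hy
      obtain ⟨_, hOy, hcc, h | h⟩ := hy
      · exact mem_union_left _ (mem_image.2 ⟨(x, y), by simp [h, hcc, hOy], rfl⟩)
      · exact mem_union_right _ (mem_image.2 ⟨(y, x), by simp [h, hcc, hOy], rfl⟩)
    refine (card_le_card hsub).trans ((card_union_le _ _).trans ?_)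
    exact add_le_add card_image_le card_image_le
  obtain ⟨f, hf1, hf2⟩ := list_color N
    (by
      intro x y hy
      simp only [N, mem_filter, mem_univ, true_and] at hy ⊢
      exact ⟨hy.2.1, hy.1, hy.2.2.1.symm, hy.2.2.2.symm⟩)
    (by
      intro x hx
      simp only [N, mem_filter, mem_univ, true_and, or_self] at hx
      exact hA (x, x) hx.2.2 rfl) L
    (by
      intro x
      by_cases hx : O x
      · simp only [L, if_pos hx]
        rw [Int.card_Icc]
        have h1 := hN x hx
        have h2 := hr x hx
        omega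
      · have : N x = ∅ := by
          ext y; simp [N, hx]
        rw [this]
        simp [L, hx])
  have hfL : ∀ x, O x → max 0 ((q x : ℤ) - p x) ≤ f x ∧ f x ≤ (q x : ℤ) - p x + (R x).card := by
    intro x hx
    have := hf1 x
    simp only [L, if_pos hx, mem_Icc] at this
    exact this
  -- the chosen reserve arcs
  have hS : ∀ x, ∃ S : Finset (V × V), S ⊆ R x ∧
      (O x → (S.card : ℤ) = f x - ((q x : ℤ) - p x)) := by
    intro x
    by_cases hx : O x
    · have h := hfL x hx
      have h1 : (f x - ((q x : ℤ) - p x)).toNat ≤ (R x).card := by omega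
      obtain ⟨S, hS, hS'⟩ := exists_subset_card_eq h1
      exact ⟨S, hS, fun _ => by rw [hS']; omega⟩
    · exact ⟨∅, empty_subset _, fun h => absurd h hx⟩
  choose S hSR hSc using hS
  have hSA : ∀ x, ∀ a ∈ S x, a ∈ A ∧ a.1 = x ∧ ctrl (c x) (c a.2) := by
    intro x a ha
    have := hSR x ha
    simp only [hR, mem_filter] at this
    exact this
  let T : Finset (V × V) := (univ.filter O).biUnion S
  have hT : ∀ a, a ∈ T ↔ O a.1 ∧ a ∈ S a.1 := by
    intro a
    simp only [T, mem_biUnion, mem_filter, mem_univ, true_and]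
    constructor
    · rintro ⟨x, hx, ha⟩
      have := (hSA x a ha).2.1
      subst this
      exact ⟨hx, ha⟩
    · rintro ⟨h1, h2⟩
      exact ⟨a.1, h1, h2⟩
  have hT' : ∀ a ∈ T, a ∈ A ∧ O a.1 ∧ ctrl (c a.1) (c a.2) := by
    intro a ha
    obtain ⟨h1, h2⟩ := (hT a).1 ha
    obtain ⟨h3, h4, h5⟩ := hSA _ _ h2
    exact ⟨h3, h1, h5⟩
  refine ⟨T, hT', fun i => ?_⟩
  set B := A.filter fun a => c a.1 = i ∧ O a.1 ∧ ((c a.2 = i ∧ O a.2) ∨ a ∈ T) with hB
  have hin : ∀ x, c x = i → O x → bal B x = f x := by
    intro x hx hOx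
    have h1 : (B.filter fun a => a.1 = x) =
        (A.filter fun a => a.1 = x ∧ c a.2 = c x ∧ O a.2) ∪ S x := by
      ext a
      simp only [hB, mem_filter, mem_union]
      constructor
      · rintro ⟨⟨h1, h2, h3, h4 | h4⟩, rfl⟩
        · left; exact ⟨h1, rfl, h4.1.trans h2.symm, h4.2⟩
        · right; exact ((hT a).1 h4).2
      · rintro (⟨h1, rfl, h3, h4⟩ | h1)
        · exact ⟨⟨h1, hx, hOx, Or.inl ⟨h3.trans hx, h4⟩⟩, rfl⟩
        · obtain ⟨h3, rfl, h5⟩ := hSA _ _ h1
          exact ⟨⟨h3, hx, hOx, Or.inr ((hT a).2 ⟨hOx, h1⟩)⟩, rfl⟩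
    have h2 : (B.filter fun a => a.2 = x) =
        (A.filter fun a => a.2 = x ∧ c a.1 = c x ∧ O a.1) := by
      ext a
      simp only [hB, mem_filter]
      constructor
      · rintro ⟨⟨g1, g2, g3, g4⟩, g5⟩
        exact ⟨g1, g5, g2.trans hx.symm, g3⟩
      · rintro ⟨g1, g2, g3, g4⟩
        exact ⟨⟨g1, g3.trans hx, g4, Or.inl ⟨g2 ▸ hx, g2 ▸ hOx⟩⟩, g2⟩
    have h3 : Disjoint (A.filter fun a => a.1 = x ∧ c a.2 = c x ∧ O a.2) (S x) := by
      rw [disjoint_left]
      intro a ha ha'
      simp only [mem_filter] at ha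
      have := (hSA x a ha').2.2
      rw [ha.2.2.1] at this
      exact ctrl_irrefl _ this
    unfold bal
    rw [h1, h2, card_union_of_disjoint h3]
    have h4 := hSc x hOx
    push_cast
    rw [h4]
    simp only [hq, hp]
    ring
  intro a ha
  have ha' := ha
  simp only [hB, mem_filter] at ha
  obtain ⟨h1, h2, h3, h4⟩ := ha
  have h5 := hin a.1 h2 h3
  by_cases h6 : c a.2 = i ∧ O a.2
  · rw [h5, hin a.2 h6.1 h6.2]
    apply hf2 a.2
    simp only [N, mem_filter, mem_univ, true_and]
    exact ⟨h6.2, h3, h6.1.trans h2.symm, Or.inr h1⟩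
  · have h7 := h4.resolve_left h6
    have h8 := (hT' a h7).2.2
    have h9 : c a.2 ≠ i := by
      intro h
      rw [h2, h] at h8
      exact ctrl_irrefl _ h8
    have h10 : bal B a.2 < 0 := by
      unfold bal
      have e : (B.filter fun b => b.1 = a.2) = ∅ := by
        rw [filter_eq_empty_iff]
        intro b hb hba
        simp only [hB, mem_filter] at hb
        exact h9 (hba ▸ hb.2.1)
      have p : 0 < (B.filter fun b => b.2 = a.2).card := card_pos.2 ⟨a, by simp [ha']⟩
      rw [e, card_empty]
      omega
    have h11 := (hfL a.1 h3).1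
    have h12 : 0 ≤ f a.1 := le_trans (le_max_left _ _) h11
    rw [h5]
    omega

/-- two different parts are separated by a binary digit -/
theorem exists_bit : ∀ i j : Fin 9, i ≠ j → ∃ p : Fin 4, (i : ℕ).testBit p ≠ (j : ℕ).testBit p := by
  decide

/-- the colours -/
abbrev Col := (Fin 9 ⊕ Fin 9) ⊕ (Bool ⊕ (Fin 4 × Bool))

theorem card_col : Fintype.card Col = 28 := by decide

/-- **Every digraph has a strong locally irregular colouring with 28 colours.** -/
theorem exists_coloring (A : Finset (V × V)) (hA : ∀ a ∈ A, a.1 ≠ a.2) :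
    ∃ f : V × V → Fin 28, ∀ i, SLI (A.filter fun a => f a = i) := by
  classical
  obtain ⟨c, hc⟩ := exists_cut A hA
  have hbit : ∃ bit : Fin 9 → Fin 9 → Fin 4, ∀ i j : Fin 9, i ≠ j →
      (i : ℕ).testBit (bit i j) ≠ (j : ℕ).testBit (bit i j) := by
    have : ∀ i j : Fin 9, ∃ p : Fin 4, i ≠ j → (i : ℕ).testBit p ≠ (j : ℕ).testBit p := by
      intro i j
      by_cases h : i = j
      · exact ⟨0, fun h' => absurd h h'⟩
      · obtain ⟨p, hp⟩ := exists_bit i j h
        exact ⟨p, fun _ => hp⟩
    choose bit hb using this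
    exact ⟨bit, hb⟩
  obtain ⟨bit, hbit⟩ := hbit
  let O : V → Prop := fun x => 2 * ((A.filter fun a => a.1 = x ∧ c a.2 = c x).card +
        (A.filter fun a => a.2 = x ∧ c a.1 = c x).card)
      ≤ (A.filter fun a => a.1 = x ∧ ctrl (c x) (c a.2)).card
  obtain ⟨T, hT, hTB⟩ := core A hA c O (fun x hx => hx)
  -- the reversed digraph
  have hA' : ∀ a ∈ A.image Prod.swap, a.1 ≠ a.2 := by
    intro a ha
    obtain ⟨b, hb, rfl⟩ := mem_image.1 ha
    exact (hA b hb).symm
  have hsw : ∀ (P : V × V → Prop) [DecidablePred P],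
      ((A.image Prod.swap).filter P).card = (A.filter fun a => P a.swap).card := by
    intro P _
    rw [filter_image, card_image_of_injective _ Prod.swap_injective]
  obtain ⟨T', hT', hTB'⟩ := core (A.image Prod.swap) hA' c (fun x => ¬ O x) (by
    intro x hx
    rw [hsw, hsw, hsw]
    simp only [Prod.fst_swap, Prod.snd_swap]
    have hx' : (A.filter fun a => a.1 = x ∧ ctrl (c x) (c a.2)).card <
        2 * ((A.filter fun a => a.1 = x ∧ c a.2 = c x).card +
        (A.filter fun a => a.2 = x ∧ c a.1 = c x).card) := by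
      simpa only [O, not_le] using hx
    have d1 : ∀ i : Fin 9, i + 1 ≠ i + 2 := by decide
    have d2 : ∀ i : Fin 9, i + 3 ≠ i + 4 := by decide
    have d3 : ∀ i j : Fin 9, (j = i + 1 ∨ j = i + 2) → (j = i + 3 ∨ j = i + 4) → False := by decide
    have e1 : (A.filter fun a => a.1 = x ∧ ctrl (c x) (c a.2)).card =
        ((A.filter fun a => a.1 = x ∧ c a.2 = c x + 1).card +
        (A.filter fun a => a.1 = x ∧ c a.2 = c x + 2).card) +
        ((A.filter fun a => a.1 = x ∧ c a.2 = c x + 3).card +
        (A.filter fun a => a.1 = x ∧ c a.2 = c x + 4).card) := by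
      rw [← card_union_of_disjoint, ← card_union_of_disjoint, ← card_union_of_disjoint]
      · congr 1
        ext a
        simp only [mem_filter, mem_union, ctrl_iff]
        tauto
      · rw [disjoint_left]
        intro a h1 h2
        simp only [mem_filter, mem_union] at h1 h2
        refine d3 (c x) (c a.2) ?_ ?_ <;> tauto
      · rw [disjoint_left]
        intro a h1 h2
        simp only [mem_filter] at h1 h2
        exact d2 _ (h1.2.2.symm.trans h2.2.2)
      · rw [disjoint_left]
        intro a h1 h2
        simp only [mem_filter] at h1 h2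
        exact d1 _ (h1.2.2.symm.trans h2.2.2)
    have e2 : (A.filter fun a => a.2 = x ∧ ctrl (c x) (c a.1)).card =
        ((A.filter fun a => a.2 = x ∧ c a.1 = c x + 1).card +
        (A.filter fun a => a.2 = x ∧ c a.1 = c x + 2).card) +
        ((A.filter fun a => a.2 = x ∧ c a.1 = c x + 3).card +
        (A.filter fun a => a.2 = x ∧ c a.1 = c x + 4).card) := by
      rw [← card_union_of_disjoint, ← card_union_of_disjoint, ← card_union_of_disjoint]
      · congr 1
        ext a
        simp only [mem_filter, mem_union, ctrl_iff]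
        tauto
      · rw [disjoint_left]
        intro a h1 h2
        simp only [mem_filter, mem_union] at h1 h2
        refine d3 (c x) (c a.1) ?_ ?_ <;> tauto
      · rw [disjoint_left]
        intro a h1 h2
        simp only [mem_filter] at h1 h2
        exact d2 _ (h1.2.2.symm.trans h2.2.2)
      · rw [disjoint_left]
        intro a h1 h2
        simp only [mem_filter] at h1 h2
        exact d1 _ (h1.2.2.symm.trans h2.2.2)
    have f1 := hc x (c x + 1)
    have f2 := hc x (c x + 2)
    have f3 := hc x (c x + 3)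
    have f4 := hc x (c x + 4)
    omega)
  -- the colouring
  let g : V × V → Col := fun a =>
    if c a.1 = c a.2 then
      if O a.1 then (if O a.2 then .inl (.inl (c a.1)) else .inr (.inl true))
      else (if O a.2 then .inr (.inl false) else .inl (.inr (c a.1)))
    else if a ∈ T then .inl (.inl (c a.1))
    else if a.swap ∈ T' then .inl (.inr (c a.2))
    else .inr (.inr (bit (c a.1) (c a.2), (c a.1 : ℕ).testBit (bit (c a.1) (c a.2))))
  have hmain : ∀ k : Col, SLI (A.filter fun a => g a = k) := by
    rintro ((i | i) | (b | ⟨p, b⟩))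
    · convert hTB i using 1
      ext a
      simp only [mem_filter, g]
      constructor
      · rintro ⟨h1, h2⟩
        refine ⟨h1, ?_⟩
        by_cases h3 : c a.1 = c a.2
        · by_cases h4 : O a.1 <;> by_cases h5 : O a.2 <;> simp only [h3, h4, h5, if_true, if_false, reduceCtorEq, Sum.inl.injEq] at h2
          exact ⟨h3.trans h2, h4, Or.inl ⟨h2, h5⟩⟩
        · rw [if_neg h3] at h2
          by_cases h4 : a ∈ T
          · simp only [if_pos h4, Sum.inl.injEq] at h2
            exact ⟨h2, (hT a h4).2.1, Or.inr h4⟩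
          · rw [if_neg h4] at h2
            by_cases h5 : a.swap ∈ T'
            · simp [if_pos h5] at h2
            · simp [if_neg h5] at h2
      · rintro ⟨h1, h2, h3, h4 | h4⟩
        · refine ⟨h1, ?_⟩
          rw [if_pos (h2.trans h4.1.symm), if_pos h3, if_pos h4.2, h2]
        · refine ⟨h1, ?_⟩
          have h5 : c a.1 ≠ c a.2 := by
            intro h
            have := (hT a h4).2.2
            rw [h] at this
            exact ctrl_irrefl _ this
          rw [if_neg h5, if_pos h4, h2]
    · apply SLI.of_swap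
      convert hTB' i using 1
      ext a
      simp only [mem_image, mem_filter, g]
      constructor
      · rintro ⟨a, ⟨h1, h2⟩, rfl⟩
        refine ⟨⟨a, h1, rfl⟩, ?_⟩
        simp only [Prod.fst_swap, Prod.snd_swap]
        by_cases h3 : c a.1 = c a.2
        · by_cases h4 : O a.1 <;> by_cases h5 : O a.2 <;> simp only [h3, h4, h5, if_true, if_false, reduceCtorEq, Sum.inl.injEq, Sum.inr.injEq] at h2
          exact ⟨h2, h5, Or.inl ⟨h3.trans h2, h4⟩⟩
        · rw [if_neg h3] at h2
          by_cases h4 : a ∈ T
          · simp [if_pos h4] at h2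
          · rw [if_neg h4] at h2
            by_cases h5 : a.swap ∈ T'
            · simp only [if_pos h5, Sum.inl.injEq, Sum.inr.injEq] at h2
              exact ⟨h2, (hT' _ h5).2.1, Or.inr h5⟩
            · simp [if_neg h5] at h2
      · rintro ⟨⟨a, h1, rfl⟩, h2, h3, h4⟩
        simp only [Prod.fst_swap, Prod.snd_swap] at h2 h3 h4
        refine ⟨a, ⟨h1, ?_⟩, rfl⟩
        rcases h4 with h4 | h4
        · rw [if_pos (h4.1.trans h2.symm), if_neg h4.2, if_neg h3, h4.1]
        · have h6 := (hT' _ h4).2.2
          simp only [Prod.fst_swap, Prod.snd_swap] at h6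
          have h5 : c a.1 ≠ c a.2 := by
            intro h
            rw [h] at h6
            exact ctrl_irrefl _ h6
          have h7 : a ∉ T := fun h => ctrl_asymm _ _ (hT a h).2.2 h6
          rw [if_neg h5, if_neg h7, if_pos h4, h2]
    · -- arcs inside the parts between the two types
      cases b
      · apply SLI.cut (fun x => ¬ O x)
        intro a ha
        simp only [mem_filter, g] at ha
        obtain ⟨h1, h2⟩ := ha
        by_cases h3 : c a.1 = c a.2
        · by_cases h4 : O a.1 <;> by_cases h5 : O a.2 <;> simp [h3, h4, h5] at h2 ⊢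
        · rw [if_neg h3] at h2
          by_cases h4 : a ∈ T
          · simp [if_pos h4] at h2
          · rw [if_neg h4] at h2
            by_cases h5 : a.swap ∈ T'
            · simp [if_pos h5] at h2
            · simp [if_neg h5] at h2
      · apply SLI.cut O
        intro a ha
        simp only [mem_filter, g] at ha
        obtain ⟨h1, h2⟩ := ha
        by_cases h3 : c a.1 = c a.2
        · by_cases h4 : O a.1 <;> by_cases h5 : O a.2 <;> simp [h3, h4, h5] at h2 ⊢
        · rw [if_neg h3] at h2
          by_cases h4 : a ∈ T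
          · simp [if_pos h4] at h2
          · rw [if_neg h4] at h2
            by_cases h5 : a.swap ∈ T'
            · simp [if_pos h5] at h2
            · simp [if_neg h5] at h2
    · -- arcs between different parts
      apply SLI.cut (fun x => (c x : ℕ).testBit p = b)
      intro a ha
      simp only [mem_filter, g] at ha
      obtain ⟨h1, h2⟩ := ha
      by_cases h3 : c a.1 = c a.2
      · exfalso
        by_cases h4 : O a.1 <;> by_cases h5 : O a.2 <;> simp [h3, h4, h5] at h2
      · rw [if_neg h3] at h2
        by_cases h4 : a ∈ T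
        · simp [if_pos h4] at h2
        · rw [if_neg h4] at h2
          by_cases h5 : a.swap ∈ T'
          · simp [if_pos h5] at h2
          · rw [if_neg h5] at h2
            simp only [Sum.inr.injEq, Prod.mk.injEq] at h2
            obtain ⟨rfl, rfl⟩ := h2
            exact ⟨rfl, (hbit _ _ h3).symm⟩
  let e : Col ≃ Fin 28 := Fintype.equivFinOfCardEq card_col
  refine ⟨fun a => e (g a), fun i => ?_⟩
  have := hmain (e.symm i)
  convert this using 3
  rw [Equiv.eq_symm_apply]

end Pool.Agent.R132.Slir
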